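import Pool.Agent.H19.AB.Defs
import Pool.Agent.H63.MA.GTw

/-!
# [H19 AB JF] the function J

`Fnl`: the property of the functional `I` (see `exists_fun`). `JJ I om φ₁ φ = I (φ^* om - φ₁^* om)`.
* `jj_add`, `jj_inf`: additivity, inflated cochains.
* `ts_pl`: the sum of the tori of `φ^* c` as a sum over the ramified primes.
* `jj_d`: `JJ (d c) φ₁ φ = TS (φ^* c) - TS (φ₁^* c)` if `φ`, `φ₁` agree at `S0`.
-/

set_option autoImplicit false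
set_option linter.dupNamespace false

open scoped NumberField
open IsDedekindDomain
open scoped Classical

noncomputable section

namespace Pool.Agent.H19.AB

open H63.MA H38.BB H38.BG H57.PC H57.BRA H89.BRG H48.MF Pool.Agent.H19.NF

variable {K : Type} [Field K] [NumberField K] {Ω : Type} [Field Ω] [Algebra K Ω]
  {p : ℕ} {ζ : K}

/-- pull-back of a 2-cochain -/
def pl2 {Γ G M : Type} [Group Γ] [Group G] (c : G → G → M) (φ : Γ →* G) (σ τ : Γ) : M :=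
  c (φ σ) (φ τ)

/-- pull-back of a 3-cochain -/
def pl3 {Γ G M : Type} [Group Γ] [Group G] (w : G → G → G → M) (φ : Γ →* G) (σ τ υ : Γ) : M :=
  w (φ σ) (φ τ) (φ υ)

theorem d2_pl2 {Γ G M : Type} [Group Γ] [Group G] [AddCommGroup M] (c : G → G → M) (φ : Γ →* G) :
    d2 (pl2 c φ) = pl3 (d2 c) φ := by
  funext σ τ υ
  unfold d2 pl2 pl3
  simp only [map_mul]

theorem br_pl2 {Γ G M : Type} [Group Γ] [Group G] [AddCommGroup M] (c : G → G → M) (φ : Γ →* G)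
    (σ τ : Γ) : br (pl2 c φ) σ τ = br c (φ σ) (φ τ) := rfl

/-- the functional `I` -/
def Fnl (p : ℕ) {ζ : K} (D : RD0 K p ζ) (L : LDs D Ω) (Q : DP K Ω) (Fr : FR L)
    (lam : Pl K → ZMod p) (m : ℕ) [NeZero (p ^ m)]
    (I : (Gal(Ω/K) → Gal(Ω/K) → Gal(Ω/K) → ZMod (p ^ m)) →+ AddCircle (1 : ℝ)) : Prop :=
  ∀ Ψ : Gal(Ω/K) → Gal(Ω/K) → ZMod (p ^ m), LfT L Ψ → Rel D Q Ψ →
    I (d2 Ψ) = ZMod.toAddCircle (TS L Fr lam Ψ)

/-- the function J -/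
def JJ {Γ G M Q : Type} [Group Γ] [Group G] [AddCommGroup M] [AddCommGroup Q]
    (I : (Γ → Γ → Γ → M) →+ Q) (om : G → G → G → M) (φ₁ φ : Γ →* G) : Q :=
  I (pl3 om φ - pl3 om φ₁)

section alg

variable {Γ G H M Q : Type} [Group Γ] [Group G] [Group H] [AddCommGroup M] [AddCommGroup Q]
  (I : (Γ → Γ → Γ → M) →+ Q)

theorem jj_add (om om' : G → G → G → M) (φ₁ φ : Γ →* G) :
    JJ I (fun x y z => om x y z + om' x y z) φ₁ φ = JJ I om φ₁ φ + JJ I om' φ₁ φ := by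
  unfold JJ
  rw [← map_add]
  congr 1
  funext σ τ υ
  show om _ _ _ + om' _ _ _ - (om _ _ _ + om' _ _ _) = (om _ _ _ - om _ _ _) + (om' _ _ _ - om' _ _ _)
  abel

theorem jj_sub (om om' : G → G → G → M) (φ₁ φ : Γ →* G) :
    JJ I (fun x y z => om x y z - om' x y z) φ₁ φ = JJ I om φ₁ φ - JJ I om' φ₁ φ := by
  unfold JJ
  rw [← map_sub]
  congr 1
  funext σ τ υ
  show om _ _ _ - om' _ _ _ - (om _ _ _ - om' _ _ _) = (om _ _ _ - om _ _ _) - (om' _ _ _ - om' _ _ _)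
  abel

theorem jj_zero (φ₁ φ : Γ →* G) : JJ I (fun _ _ _ => (0 : M)) φ₁ φ = 0 := by
  unfold JJ
  have : (pl3 (fun _ _ _ => (0 : M)) φ - pl3 (fun _ _ _ => (0 : M)) φ₁ : Γ → Γ → Γ → M) = 0 := by
    funext σ τ υ
    show (0 : M) - 0 = 0
    rw [sub_zero]
  rw [this, map_zero]

theorem jj_self (om : G → G → G → M) (φ₁ : Γ →* G) : JJ I om φ₁ φ₁ = 0 := by
  unfold JJ
  rw [sub_self, map_zero]

theorem jj_inf (q : G →* H) (k : H → H → H → M) (φ₁ φ : Γ →* G) :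
    JJ I (fun x y z => k (q x) (q y) (q z)) φ₁ φ = JJ I k (q.comp φ₁) (q.comp φ) := rfl

end alg

/-- pull-backs are of finite level -/
theorem lft_pl2 {D : RD0 K p ζ} {L : LDs D Ω} {M : Type} [AddCommGroup M] {R : Type} [Group R]
    [Finite R] {ρ : Gal(Ω/K) →* R} (hR : Tme L ρ) (hρ : H38.ML.FT ρ) {c : R → R → M}
    (hc : Nr2 c) : LfT L (pl2 c ρ) :=
  ⟨R, inferInstance, inferInstance, ρ, c, hR, hρ, hc.l, hc.r, fun _ _ => rfl⟩

theorem tme_prod {D : RD0 K p ζ} {L : LDs D Ω} {G H : Type} [Group G] [Group H]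
    {φ : Gal(Ω/K) →* G} {ψ : Gal(Ω/K) →* H} (hφ : Tme L φ) (hψ : Tme L ψ) :
    Tme L (φ.prod ψ) := fun v hv τ hτ => Prod.ext (hφ v hv τ hτ) (hψ v hv τ hτ)

theorem tme_comp {D : RD0 K p ζ} {L : LDs D Ω} {G H : Type} [Group G] [Group H]
    {φ : Gal(Ω/K) →* G} (hφ : Tme L φ) (f : G →* H) : Tme L (f.comp φ) := fun v hv τ hτ => by
  rw [MonoidHom.comp_apply, ← map_pow, hφ v hv τ hτ, map_one]

theorem tme_exp {D : RD0 K p ζ} {L : LDs D Ω} {G : Type} [Group G] (hG : ∀ g : G, g ^ p = 1)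
    (φ : Gal(Ω/K) →* G) : Tme L φ := fun _ _ _ _ => hG _

omit [NumberField K] in
theorem ft_prod {G H : Type} [Group G] [Group H] {φ : Gal(Ω/K) →* G} {ψ : Gal(Ω/K) →* H}
    (hφ : H38.ML.FT φ) (hψ : H38.ML.FT ψ) : H38.ML.FT (φ.prod ψ) := by
  obtain ⟨E, hE, hE2⟩ := hφ
  obtain ⟨E', hE', hE2'⟩ := hψ
  refine ⟨E ⊔ E', IntermediateField.finiteDimensional_sup _ _, fun u hu => ?_⟩
  have h1 : φ u = 1 := MonoidHom.mem_ker.1
    (hE2 (IntermediateField.fixingSubgroup_antitone le_sup_left hu))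
  have h2 : ψ u = 1 := MonoidHom.mem_ker.1
    (hE2' (IntermediateField.fixingSubgroup_antitone le_sup_right hu))
  rw [MonoidHom.mem_ker, MonoidHom.prod_apply, h1, h2]
  rfl

theorem t_S0 {D : RD0 K p ζ} (L : LDs D Ω) {v : Pl K} (hv : v ∈ D.S0) : L.t v = 1 := by
  unfold LDs.t
  rw [dif_neg (not_not.2 hv)]

/-- the sum of the tori as a finite sum -/
theorem ts_sum {D : RD0 K p ζ} (L : LDs D Ω) (Fr : FR L) (lam : Pl K → ZMod p) {M : Type}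
    [AddCommGroup M] {Ψ : Gal(Ω/K) → Gal(Ω/K) → M} (T : Finset (Pl K))
    (h : ∀ v, v ∉ T → br Ψ (L.t v) (Fr.F v) = 0) :
    TS L Fr lam Ψ = ∑ v ∈ T, (lam v).val • br Ψ (L.t v) (Fr.F v) := by
  unfold TS
  refine finsum_eq_sum_of_support_subset _ fun v hv => ?_
  by_contra hT
  exact hv (by
    show (lam v).val • br Ψ (L.t v) (Fr.F v) = 0
    rw [h v (fun h' => hT (Finset.mem_coe.2 h')), smul_zero])

theorem ts_pl {D : RD0 K p ζ} (L : LDs D Ω) (Fr : FR L) (lam : Pl K → ZMod p) {M : Type}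
    [AddCommGroup M] {G : Type} [Group G] {c : G → G → M} (hc : Nr2 c) (φ : Gal(Ω/K) →* G)
    (T : Finset (Pl K)) (h : ∀ v, v ∉ D.S0 → v ∉ T → φ (L.t v) = 1) :
    TS L Fr lam (pl2 c φ) = ∑ v ∈ T, (lam v).val • br c (φ (L.t v)) (φ (Fr.F v)) := by
  refine ts_sum L Fr lam T fun v hv => ?_
  have h1 : φ (L.t v) = 1 := by
    by_cases hS : v ∈ D.S0
    · rw [t_S0 L hS, map_one]
    · exact h v hS hv
  rw [br_pl2, h1]
  unfold br
  rw [hc.l, hc.r, sub_zero]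

/-- finite support -/
theorem ts_supp (hp : p.Prime) {D : RD0 K p ζ} (L : LDs D Ω) [IsAlgClosure K Ω] {G : Type} [Group G]
    {φ : Gal(Ω/K) →* G} (hφ : H38.ML.FT φ) : ∃ T : Finset (Pl K),
      (∀ v ∈ T, v ∉ D.S0) ∧ ∀ v, v ∉ D.S0 → v ∉ T → φ (L.t v) = 1 := by
  have h := ram_finite hp D L φ hφ
  refine ⟨h.toFinset, fun v hv => ((Set.Finite.mem_toFinset h).1 hv).1, fun v hv hT => ?_⟩
  by_contra h'
  exact hT ((Set.Finite.mem_toFinset h).2 ⟨hv, h'⟩)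

/-- the coboundary formula for J -/
theorem jj_d (hp : p.Prime) [IsAlgClosure K Ω] {D : RD0 K p ζ} {L : LDs D Ω} {Q : DP K Ω}
    {Fr : FR L} {lam : Pl K → ZMod p} {m : ℕ} [NeZero (p ^ m)]
    {I : (Gal(Ω/K) → Gal(Ω/K) → Gal(Ω/K) → ZMod (p ^ m)) →+ AddCircle (1 : ℝ)}
    (hI : Fnl p D L Q Fr lam m I) {G : Type} [Group G] [Finite G]
    {c : G → G → ZMod (p ^ m)} (hc : Nr2 c) {φ₁ φ : Gal(Ω/K) →* G} (h1 : H38.ML.FT φ₁)
    (h : H38.ML.FT φ) (ht1 : Tme L φ₁) (ht : Tme L φ) (hT : Teq D.S0 Q φ φ₁) :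
    JJ I (d2 c) φ₁ φ =
      ZMod.toAddCircle (TS L Fr lam (pl2 c φ)) - ZMod.toAddCircle (TS L Fr lam (pl2 c φ₁)) := by
  set R := G × G with hR
  let f : R → R → ZMod (p ^ m) := fun a b => c a.1 b.1 - c a.2 b.2
  have hf : Nr2 f := ⟨fun y => by
    show c 1 y.1 - c 1 y.2 = 0
    rw [hc.l, hc.l, sub_zero], fun x => by
    show c x.1 1 - c x.2 1 = 0
    rw [hc.r, hc.r, sub_zero]⟩
  have hbr : ∀ a b : R, br f a b = br c a.1 b.1 - br c a.2 b.2 := by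
    intro a b
    show (c a.1 b.1 - c a.2 b.2) - (c b.1 a.1 - c b.2 a.2) = (c a.1 b.1 - c b.1 a.1) - (c a.2 b.2 - c b.2 a.2)
    abel
  have hd : ∀ a b e : R, d2 f a b e = d2 c a.1 b.1 e.1 - d2 c a.2 b.2 e.2 := by
    intro a b e
    show (c b.1 e.1 - c b.2 e.2) - (c (a.1 * b.1) e.1 - c (a.2 * b.2) e.2) +
      (c a.1 (b.1 * e.1) - c a.2 (b.2 * e.2)) - (c a.1 b.1 - c a.2 b.2) =
      (c b.1 e.1 - c (a.1 * b.1) e.1 + c a.1 (b.1 * e.1) - c a.1 b.1) -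
      (c b.2 e.2 - c (a.2 * b.2) e.2 + c a.2 (b.2 * e.2) - c a.2 b.2)
    abel
  have h2 := hI (pl2 f (φ.prod φ₁)) (lft_pl2 (tme_prod ht ht1) (ft_prod h h1) hf) (by
    intro v hv σ hσ τ hτ
    show c (φ σ) (φ τ) - c (φ₁ σ) (φ₁ τ) = 0
    rw [hT v hv σ hσ, hT v hv τ hτ, sub_self])
  obtain ⟨T, hT1, hT2⟩ := ts_supp hp L (ft_prod h h1)
  have e1 : TS L Fr lam (pl2 f (φ.prod φ₁)) =
      TS L Fr lam (pl2 c φ) - TS L Fr lam (pl2 c φ₁) := by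
    rw [ts_pl L Fr lam hf _ T hT2, ts_pl L Fr lam hc φ T fun v hv hvT => congrArg Prod.fst (hT2 v hv hvT),
      ts_pl L Fr lam hc φ₁ T fun v hv hvT => congrArg Prod.snd (hT2 v hv hvT),
      ← Finset.sum_sub_distrib]
    refine Finset.sum_congr rfl fun v _ => ?_
    rw [← smul_sub, hbr]
    rfl
  rw [← map_sub, ← e1, ← h2]
  unfold JJ
  congr 1
  rw [d2_pl2]
  funext σ τ υ
  show d2 c _ _ _ - d2 c _ _ _ = d2 f _ _ _
  rw [hd]
  rfl

end Pool.Agent.H19.AB
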