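import Pool.Agent.H19.AB.Rm
import Pool.Agent.H19.NF.Fun

/-!
# [H19 AB FI] the functional I

`exists_I` (H19/NF/Fun) for the subgroup of the cochains with `Lf2` and `Rel` and the sum of the tori with values in `ℝ/ℤ` (`AddCircle (1 : ℝ)` is divisible):
additivity of `TS` on `Lf2` (finite support: `ram_finite`), closure of `Lf2` under sums (product group).
-/

set_option autoImplicit false
set_option linter.dupNamespace false

open scoped NumberField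
open IsDedekindDomain
open scoped Classical

noncomputable section

namespace Pool.Agent.H19.AB

open H63.MA H38.BB H38.BG H57.PC H57.BRA H89.BRG H48.MF Pool.Agent.H19.NF

variable {K : Type} [Field K] [NumberField K] {Ω : Type} [Field Ω] [Algebra K Ω] [IsAlgClosure K Ω]
  {p : ℕ} {ζ : K}

theorem lft_sub {D : RD0 K p ζ} {L : LDs D Ω} {M : Type} [AddCommGroup M]
    {Ψ Ψ' : Gal(Ω/K) → Gal(Ω/K) → M} (h : LfT L Ψ) (h' : LfT L Ψ') :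
    LfT L (fun σ τ => Ψ σ τ - Ψ' σ τ) := by
  obtain ⟨R, i1, i2, ρ, ψ, ht, hρ, hl, hr, hΨ⟩ := h
  obtain ⟨R', i1', i2', ρ', ψ', ht', hρ', hl', hr', hΨ'⟩ := h'
  refine ⟨R × R', inferInstance, inferInstance, ρ.prod ρ', fun x y => ψ x.1 y.1 - ψ' x.2 y.2,
    fun v hv τ hτ => Prod.ext (ht v hv τ hτ) (ht' v hv τ hτ), ?_, fun r => ?_, fun r => ?_,
    fun σ τ => ?_⟩
  · obtain ⟨E, hE, hE2⟩ := hρ
    obtain ⟨E', hE', hE2'⟩ := hρ'
    refine ⟨E ⊔ E', IntermediateField.finiteDimensional_sup _ _, fun u hu => ?_⟩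
    have h1 : ρ u = 1 := MonoidHom.mem_ker.1
      (hE2 (IntermediateField.fixingSubgroup_antitone le_sup_left hu))
    have h2 : ρ' u = 1 := MonoidHom.mem_ker.1
      (hE2' (IntermediateField.fixingSubgroup_antitone le_sup_right hu))
    rw [MonoidHom.mem_ker, MonoidHom.prod_apply, h1, h2]
    rfl
  · show ψ 1 r.1 - ψ' 1 r.2 = 0
    rw [hl, hl', sub_zero]
  · show ψ r.1 1 - ψ' r.2 1 = 0
    rw [hr, hr', sub_zero]
  · show Ψ σ τ - Ψ' σ τ = ψ (ρ σ) (ρ τ) - ψ' (ρ' σ) (ρ' τ)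
    rw [hΨ, hΨ']

omit [IsAlgClosure K Ω] in
theorem lft_zero {D : RD0 K p ζ} {L : LDs D Ω} {M : Type} [AddCommGroup M] :
    LfT L (fun _ _ => (0 : M)) := by
  refine ⟨Unit, inferInstance, inferInstance, 1, fun _ _ => 0, fun v hv τ hτ => rfl, ?_,
    fun _ => rfl, fun _ => rfl, fun _ _ => rfl⟩
  exact ⟨⊥, inferInstance, fun u _ => MonoidHom.mem_ker.2 rfl⟩

/-- finite support -/
theorem ts_fin (hp : p.Prime) {D : RD0 K p ζ} (L : LDs D Ω) (Fr : FR L) {M : Type} [AddCommGroup M]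
    {Ψ : Gal(Ω/K) → Gal(Ω/K) → M} (h : LfT L Ψ) :
    {v | br Ψ (L.t v) (Fr.F v) ≠ 0}.Finite := by
  obtain ⟨R, i1, i2, ρ, ψ, ht, hρ, hl, hr, hΨ⟩ := h
  refine (ram_finite hp D L ρ hρ).subset fun v hv => ?_
  have hρt : ρ (L.t v) ≠ 1 := by
    intro h4
    apply hv
    unfold br
    rw [hΨ, hΨ, h4, hl, hr, sub_zero]
  refine ⟨fun hS => hρt ?_, hρt⟩
  have h5 : L.t v = 1 := by
    unfold LDs.t
    rw [dif_neg (not_not.2 hS)]
  rw [h5, map_one]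

theorem ts_add (hp : p.Prime) {D : RD0 K p ζ} (L : LDs D Ω) (Fr : FR L) (lam : Pl K → ZMod p)
    {M : Type} [AddCommGroup M] {Ψ Ψ' : Gal(Ω/K) → Gal(Ω/K) → M} (h : LfT L Ψ) (h' : LfT L Ψ') :
    TS L Fr lam (Ψ + Ψ') = TS L Fr lam Ψ + TS L Fr lam Ψ' := by
  unfold TS
  rw [← finsum_add_distrib]
  · refine finsum_congr fun v => ?_
    rw [← smul_add]
    congr 1
    show (Ψ (L.t v) (Fr.F v) + Ψ' (L.t v) (Fr.F v)) - (Ψ (Fr.F v) (L.t v) + Ψ' (Fr.F v) (L.t v)) =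
      (Ψ (L.t v) (Fr.F v) - Ψ (Fr.F v) (L.t v)) + (Ψ' (L.t v) (Fr.F v) - Ψ' (Fr.F v) (L.t v))
    abel
  · refine (ts_fin hp L Fr h).subset fun v hv h1 => hv ?_
    show (lam v).val • br Ψ (L.t v) (Fr.F v) = 0
    rw [h1, smul_zero]
  · refine (ts_fin hp L Fr h').subset fun v hv h1 => hv ?_
    show (lam v).val • br Ψ' (L.t v) (Fr.F v) = 0
    rw [h1, smul_zero]

/-- the functional -/
theorem exists_fun (hp : p.Prime) (hp2 : MOne p K) (hζ : IsPrimitiveRoot ζ p) (hz2 : Z2 p K)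
    {D : RD0 K p ζ} {L : LDs D Ω} (Q : DP K Ω) (Fr : FR L) {lam : Pl K → ZMod p}
    (hlam : IsRec p ζ lam) {m : ℕ} [NeZero (p ^ m)] (hm : 1 ≤ m) {z : K}
    (hz : IsPrimitiveRoot z (p ^ (m + 1))) (hzζ : z ^ (p ^ m) = ζ) :
    ∃ I : (Gal(Ω/K) → Gal(Ω/K) → Gal(Ω/K) → ZMod (p ^ m)) →+ AddCircle (1 : ℝ),
      ∀ Ψ : Gal(Ω/K) → Gal(Ω/K) → ZMod (p ^ m), LfT L Ψ → Rel D Q Ψ →
        I (d2 Ψ) = ZMod.toAddCircle (TS L Fr lam Ψ) := by
  have hneg : ∀ {Ψ : Gal(Ω/K) → Gal(Ω/K) → ZMod (p ^ m)}, LfT L Ψ → LfT L (-Ψ) := by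
    intro Ψ h
    have h1 := lft_sub (lft_zero (L := L) (M := ZMod (p ^ m))) h
    have h2 : (fun σ τ => (0 : ZMod (p ^ m)) - Ψ σ τ) = -Ψ := by
      funext σ τ
      exact zero_sub _
    rwa [h2] at h1
  let S : AddSubgroup (Gal(Ω/K) → Gal(Ω/K) → ZMod (p ^ m)) :=
    { carrier := {Ψ | LfT L Ψ ∧ Rel D Q Ψ}
      zero_mem' := ⟨lft_zero, fun v _ σ _ τ _ => rfl⟩
      neg_mem' := fun {Ψ} h => ⟨hneg h.1, fun v hv σ hσ τ hτ => by
        show -(Ψ σ τ) = 0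
        rw [h.2 v hv σ hσ τ hτ, neg_zero]⟩
      add_mem' := fun {Ψ Ψ'} h h' => by
        refine ⟨?_, fun v hv σ hσ τ hτ => ?_⟩
        · have h1 := lft_sub h.1 (hneg h'.1)
          have h2 : (fun σ τ => Ψ σ τ - (-Ψ') σ τ) = Ψ + Ψ' := by
            funext σ τ
            exact sub_neg_eq_add _ _
          rwa [h2] at h1
        · show Ψ σ τ + Ψ' σ τ = 0
          rw [h.2 v hv σ hσ τ hτ, h'.2 v hv σ hσ τ hτ, add_zero] }
  let F : S →+ AddCircle (1 : ℝ) := AddMonoidHom.mk'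
    (fun Ψ => ZMod.toAddCircle (TS L Fr lam Ψ.1)) fun Ψ Ψ' => by
      show ZMod.toAddCircle (TS L Fr lam (Ψ.1 + Ψ'.1)) = _
      rw [ts_add hp L Fr lam Ψ.2.1 Ψ'.2.1, map_add]
  obtain ⟨I, hI⟩ := exists_I S F fun Ψ h => by
    show ZMod.toAddCircle (TS L Fr lam Ψ.1) = 0
    rw [rm hp hp2 hζ hz2 Q Fr hlam hm hz hzζ Ψ.1 Ψ.2.1 Ψ.2.2 h, map_zero]
  exact ⟨I, fun Ψ h h' => hI ⟨Ψ, h, h'⟩⟩

end Pool.Agent.H19.AB
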