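import Pool.Agent.H19.AB.Bet
import Pool.Agent.H51.MT.Brg

/-!
# [H19 AB LEQ] uniqueness of the constants of the reciprocity law

`lam_eq`: if `IsRec p ζ lam` and `lam = 1` at the good primes then `lam v = D.lam v` for all `v ∉ S0`. `relc`: the reciprocity law for two characters, one of
them trivial at `S0`.
-/

set_option autoImplicit false
set_option linter.dupNamespace false

open scoped NumberField
open IsDedekindDomain
open scoped Classical

noncomputable section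

namespace Pool.Agent.H19.AB

open H63.MA H38.BB H38.BG H57.PC H57.BRA H89.BRG H48.MF Pool.Agent.H19.NF

variable {K : Type} [Field K] [NumberField K] {Ω : Type} [Field Ω] [Algebra K Ω]
  [IsAlgClosure K Ω] {p : ℕ} {ζ : K}

/-- reciprocity for two characters -/
theorem relc (hp : p.Prime) (hp2 : MOne p K) (hζ : IsPrimitiveRoot ζ p) (hz : Z2 p K)
    {D : RD0 K p ζ} {L : LDs D Ω} (Q : DP K Ω) (Fr : FR L) {lam : Pl K → ZMod p}
    (hlam : IsRec p ζ lam) (a b : Kˣ)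
    (hb : ∀ v ∈ D.S0, ∀ σ ∈ dec (K := K) (Q.P v), kk p ζ b σ = 0) (T : Finset (Pl K))
    (hT : ∀ v ∈ T, v ∉ D.S0) (hu : ∀ v, v ∉ D.S0 → v ∉ T →
      kk p ζ a (L.t v) = 0 ∧ kk p ζ b (L.t v) = 0) :
    ∑ v ∈ T, lam v * (kk p ζ a (Fr.F v) * kk p ζ b (L.t v) -
      kk p ζ a (L.t v) * kk p ζ b (Fr.F v)) = 0 := by
  have hF : Fact p.Prime := ⟨hp⟩
  have hexp : ∀ x : Multiplicative (ZMod p) × Multiplicative (ZMod p), x ^ p = 1 := by
    have h1 : ∀ x : Multiplicative (ZMod p), x ^ p = 1 := by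
      intro x
      apply Multiplicative.toAdd.injective
      rw [toAdd_pow, toAdd_one, nsmul_eq_mul, CharP.cast_eq_zero, zero_mul]
    exact fun x => Prod.ext (h1 _) (h1 _)
  have hmul : ∀ (c : Kˣ) (σ τ : Gal(Ω/K)), kk p ζ c (σ * τ) = kk p ζ c σ + kk p ζ c τ := by
    intro c σ τ
    rw [← kk_kc, map_mul, toAdd_mul, kk_kc, kk_kc]
  have hone : ∀ c : Kˣ, kk p ζ c (1 : Gal(Ω/K)) = 0 := by
    intro c
    rw [← kk_kc, map_one, toAdd_one]
  have hft := ft_prod (kc_ft (Ω := Ω) hp hζ a) (kc_ft (Ω := Ω) hp hζ b)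
  refine H51.MT.brg hp hp2 hζ hz Q Fr ((kc p ζ Ω a).prod (kc p ζ Ω b)) hft
    (fun σ τ => kk p ζ a σ * kk p ζ b τ) (fun σ => by rw [hone, zero_mul])
    (fun σ => by rw [hone, mul_zero]) (fun σ τ υ => by rw [hmul, hmul]; ring)
    (fun σ σ' τ τ' h h' => ?_) (fun v hv => ⟨fun _ => 0, ?_, fun σ _ τ hτ => ?_⟩)
    (fun v _ τ _ => hexp _) T hT (fun v hv hvT => ?_) hlam
  · have h1 : kk p ζ a σ = kk p ζ a σ' := congrArg (fun x => Multiplicative.toAdd x.1) h
    have h2 : kk p ζ b τ = kk p ζ b τ' := congrArg (fun x => Multiplicative.toAdd x.2) h'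
    rw [h1, h2]
  · obtain ⟨E, hE, -⟩ := hft
    exact ⟨E, hE, fun _ _ _ => rfl⟩
  · show (0 : ZMod p) = 0 + 0 + kk p ζ a σ * kk p ζ b τ
    rw [hb v hv τ hτ]
    ring
  · obtain ⟨h1, h2⟩ := hu v hv hvT
    exact Prod.ext (Multiplicative.toAdd.injective h1) (Multiplicative.toAdd.injective h2)

/-- uniqueness of the constants -/
theorem lam_eq (hp : p.Prime) (hp2 : MOne p K) (hζ : IsPrimitiveRoot ζ p) (hz : Z2 p K)
    (D : RD K p ζ) (L : LDs D.toRD0 Ω) (Q : DP K Ω) (Fr : FR L) {lam : Pl K → ZMod p}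
    (hlam : IsRec p ζ lam) (hone : ∀ v, D.Gd v → lam v = 1) {v₀ : Pl K} (hv₀ : v₀ ∉ D.S0) :
    lam v₀ = D.lam v₀ := by
  have hF : Fact p.Prime := ⟨hp⟩
  -- the two relations
  have key : ∀ (T₀ : Finset (Pl K)) (α : Pl K → ZMod p), (∀ w ∈ T₀, D.Gd w ∧ w ≠ v₀) →
      ∑ w ∈ T₀, α w • D.q w = 0 → kk p ζ (pT D.toRD0 T₀ α) (Fr.F v₀) ≠ 0 →
      lam v₀ = D.lam v₀ := by
    intro T₀ α hT₀ hα hne
    have hT₀' : ∀ w ∈ T₀, w ∉ D.S0 := fun w hw => (hT₀ w hw).1.1
    have hv0 : v₀ ∉ T₀ := fun h => (hT₀ v₀ h).2 rfl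
    have hps : PS p ζ D.S0 (pT D.toRD0 T₀ α) := by
      have h1 := ps_pf D.toRD0 (x := pT D.toRD0 T₀ α) (by rw [pT_qs hp D.toRD0 T₀ hT₀' α, hα])
      rwa [pT_pf D.toRD0 T₀ hT₀' α] at h1
    have hbt : ∀ v, v ∉ D.S0 → kk p ζ (pT D.toRD0 T₀ α) (L.t v) = if v ∈ T₀ then α v else 0 := by
      intro v hv
      rw [pT_kk hp hζ]
      have e1 : ∀ w ∈ T₀, α w * kk p ζ (D.pi w) (L.t v) = if v = w then α w else 0 := by
        intro w hw
        by_cases hvw : v = w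
        · rw [if_pos hvw, (kk_pi hp hζ D.toRD0 L w v (hT₀' w hw) hv).1 hvw.symm, mul_one]
        · rw [if_neg hvw, (kk_pi hp hζ D.toRD0 L w v (hT₀' w hw) hv).2 (fun h => hvw h.symm),
            mul_zero]
      rw [Finset.sum_congr rfl e1, Finset.sum_ite_eq]
    have h1 := relc hp hp2 hζ hz Q Fr hlam (D.pi v₀) (pT D.toRD0 T₀ α)
      (fun v hv σ hσ => ps_triv hp hp2 hζ D.toRD0 Q _ hps v hv σ hσ) (insert v₀ T₀)
      (fun v hv => by
        rcases Finset.mem_insert.1 hv with h | h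
        · rw [h]
          exact hv₀
        · exact hT₀' v h)
      (fun v hv hvT => by
        rw [Finset.mem_insert, not_or] at hvT
        exact ⟨(kk_pi hp hζ D.toRD0 L v₀ v hv₀ hv).2 (fun h => hvT.1 h.symm), by
          rw [hbt v hv, if_neg hvT.2]⟩)
    rw [Finset.sum_insert hv0, hbt v₀ hv₀, if_neg hv0, mul_zero, zero_sub,
      (kk_pi hp hζ D.toRD0 L v₀ v₀ hv₀ hv₀).1 rfl, one_mul] at h1
    have h2 : ∀ w ∈ T₀, lam w * (kk p ζ (D.pi v₀) (Fr.F w) * kk p ζ (pT D.toRD0 T₀ α) (L.t w) -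
        kk p ζ (D.pi v₀) (L.t w) * kk p ζ (pT D.toRD0 T₀ α) (Fr.F w)) =
        α w * (∑ i, (D.rec1 (D.pi v₀)).choose i * D.q w i) +
          D.lam v₀ * (α w * kk p ζ (D.pi w) (Fr.F v₀)) := by
      intro w hw
      rw [hone w (hT₀ w hw).1, hbt w (hT₀' w hw), if_pos hw,
        (kk_pi hp hζ D.toRD0 L v₀ w hv₀ (hT₀' w hw)).2 (fun h => (hT₀ w hw).2 h.symm),
        Fr.kf w (hT₀' w hw), rec_pi D hv₀ (hT₀ w hw).1, Fr.kf v₀ hv₀]
      ring
    rw [Finset.sum_congr rfl h2, Finset.sum_add_distrib, ← Finset.mul_sum,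
      ← pT_kk hp hζ D.toRD0 T₀ α] at h1
    have h3 : ∑ w ∈ T₀, α w * ∑ i, (D.rec1 (D.pi v₀)).choose i * D.q w i = 0 := by
      have h4 : ∑ w ∈ T₀, α w * ∑ i, (D.rec1 (D.pi v₀)).choose i * D.q w i =
          ∑ i, (D.rec1 (D.pi v₀)).choose i * (∑ w ∈ T₀, α w • D.q w) i := by
        simp only [Finset.sum_apply, Pi.smul_apply, smul_eq_mul, Finset.mul_sum]
        rw [Finset.sum_comm]
        refine Finset.sum_congr rfl fun w _ => Finset.sum_congr rfl fun i _ => ?_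
        ring
      rw [h4, hα]
      simp
    rw [h3, zero_add] at h1
    have h5 : (D.lam v₀ - lam v₀) * kk p ζ (pT D.toRD0 T₀ α) (Fr.F v₀) = 0 := by
      linear_combination h1
    rcases mul_eq_zero.1 h5 with h | h
    · exact (sub_eq_zero.1 h).symm
    · exact absurd h hne
  -- a relation
  by_contra hcon
  obtain ⟨T₁, hT₁, hsp⟩ := spn hp D.toRD0 {v₀}
  choose α hα using fun j : Fin D.r => hsp (Pi.single j 1)
  have hlin : ∀ w, D.Gd w → w ≠ v₀ → kk p ζ (D.pi w) (Fr.F v₀) =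
      ∑ j, (∑ u ∈ T₁, α j u * kk p ζ (D.pi u) (Fr.F v₀)) * D.q w j := by
    intro w hw hne
    by_contra hx
    let γ : Pl K → ZMod p := fun u => (if u = w then 1 else 0) -
      (if u ∈ T₁ then ∑ j, D.q w j * α j u else 0)
    have hsum : ∀ f : Pl K → ZMod p, ∑ u ∈ insert w T₁, γ u * f u =
        f w - ∑ j, D.q w j * ∑ u ∈ T₁, α j u * f u := by
      intro f
      have e1 : ∀ u ∈ insert w T₁, γ u * f u = (if u = w then f w else 0) -
          (if u ∈ T₁ then (∑ j, D.q w j * α j u) * f u else 0) := by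
        intro u _
        show ((if u = w then 1 else 0) - (if u ∈ T₁ then ∑ j, D.q w j * α j u else 0)) * f u = _
        by_cases h : u = w
        · by_cases h' : u ∈ T₁
          · rw [if_pos h, if_pos h', if_pos h, if_pos h', sub_mul, one_mul, h]
          · rw [if_pos h, if_neg h', if_pos h, if_neg h', sub_mul, one_mul, h, zero_mul]
        · by_cases h' : u ∈ T₁
          · rw [if_neg h, if_pos h', if_neg h, if_pos h', sub_mul, zero_mul]
          · rw [if_neg h, if_neg h', if_neg h, if_neg h', sub_mul, zero_mul]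
      rw [Finset.sum_congr rfl e1, Finset.sum_sub_distrib, Finset.sum_ite_eq' (insert w T₁) w,
        if_pos (Finset.mem_insert_self w T₁), ← Finset.sum_filter]
      congr 1
      have e2 : (insert w T₁).filter (fun u => u ∈ T₁) = T₁ := by
        ext u
        rw [Finset.mem_filter, Finset.mem_insert]
        exact ⟨fun h => h.2, fun h => ⟨Or.inr h, h⟩⟩
      rw [e2]
      simp only [Finset.sum_mul, Finset.mul_sum]
      rw [Finset.sum_comm]
      refine Finset.sum_congr rfl fun j _ => Finset.sum_congr rfl fun u _ => ?_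
      ring
    apply hcon
    refine key (insert w T₁) γ (fun u hu => ?_) ?_ ?_
    · rcases Finset.mem_insert.1 hu with h | h
      · rw [h]
        exact ⟨hw, hne⟩
      · exact ⟨(hT₁ u h).1, fun h' => (hT₁ u h).2 (Finset.mem_singleton.2 h')⟩
    · funext i
      have h1 := hsum fun u => D.q u i
      simp only [Finset.sum_apply, Pi.smul_apply, smul_eq_mul, Pi.zero_apply]
      rw [h1, sub_eq_zero]
      have h2 : ∀ j, ∑ u ∈ T₁, α j u * D.q u i = (Pi.single j 1 : Fin D.r → ZMod p) i := by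
        intro j
        rw [hα j, Finset.sum_apply]
        rfl
      simp only [h2]
      rw [Finset.sum_eq_single i]
      · rw [Pi.single_eq_same, mul_one]
      · intro j _ hj
        rw [Pi.single_eq_of_ne (Ne.symm hj), mul_zero]
      · intro h
        exact absurd (Finset.mem_univ i) h
    · rw [pT_kk hp hζ, hsum fun u => kk p ζ (D.pi u) (Fr.F v₀)]
      intro h
      apply hx
      rw [sub_eq_zero.1 h]
      refine Finset.sum_congr rfl fun j _ => ?_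
      rw [mul_comm]
  -- contradiction
  set κ : Fin D.r → ZMod p := fun j => (D.rec1 (D.pi v₀)).choose j +
    D.lam v₀ * ∑ u ∈ T₁, α j u * kk p ζ (D.pi u) (Fr.F v₀) with hκ
  obtain ⟨ξ, h1, h2, h3⟩ := q_xi hp hp2 hζ D L Q Fr κ
  obtain ⟨u, hu, rfl⟩ := xi_unit hp hζ L ξ h1 h2
  have h4 : IsPow p (D.pi v₀ * u⁻¹) := by
    by_contra hne
    obtain ⟨w, hw, hw1, -, hw2⟩ := D.non _ hne {v₀}
    apply hw2
    have h5 : kk p ζ (D.pi v₀) (Fr.F w) = kk p ζ u (Fr.F w) := by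
      have h6 := hlin w hw (fun h => hw1 (Finset.mem_singleton.2 h))
      rw [Fr.kf v₀ hv₀] at h6
      rw [Fr.kf w hw.1, rec_pi D hv₀ hw, h6, ← kk_kc p ζ u, h3 w hw, Finset.mul_sum,
        ← Finset.sum_add_distrib]
      refine Finset.sum_congr rfl fun j _ => ?_
      rw [hκ]
      ring
    rw [← Fr.kf w hw.1, ← zpow_neg_one u, kk_mul_arg hp hζ, kk_zpow_arg hp hζ, h5, Int.cast_neg,
      Int.cast_one, neg_one_mul, add_neg_cancel]
  obtain ⟨z, hz'⟩ := h4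
  have h6 : ord v₀ (z ^ p) = 1 := by
    rw [hz', ord_mul, ord_inv, D.pi_self v₀ hv₀, hu v₀ hv₀, neg_zero, add_zero]
  rw [ord_pow] at h6
  have h7 : (p : ℤ) ∣ 1 := ⟨_, h6.symm⟩
  have h8 : p ∣ 1 := by exact_mod_cast h7
  exact hp.one_lt.ne' (Nat.dvd_one.1 h8)

omit [IsAlgClosure K Ω] in
theorem ts_lam {D : RD0 K p ζ} (L : LDs D Ω) (Fr : FR L) {lam lam' : Pl K → ZMod p}
    (h : ∀ v, v ∉ D.S0 → lam v = lam' v) {M : Type} [AddCommGroup M]
    {Ψ : Gal(Ω/K) → Gal(Ω/K) → M} (h1 : ∀ σ, Ψ 1 σ = 0) (h2 : ∀ σ, Ψ σ 1 = 0) :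
    TS L Fr lam Ψ = TS L Fr lam' Ψ := by
  unfold TS
  refine finsum_congr fun v => ?_
  by_cases hv : v ∈ D.S0
  · have h3 : br Ψ (L.t v) (Fr.F v) = 0 := by
      unfold br
      rw [t_S0 L hv, h1, h2, sub_zero]
    rw [h3, smul_zero, smul_zero]
  · rw [h v hv]

omit [IsAlgClosure K Ω] in
theorem fnl_lam {D : RD0 K p ζ} {L : LDs D Ω} {Q : DP K Ω} {Fr : FR L} {lam lam' : Pl K → ZMod p}
    (h : ∀ v, v ∉ D.S0 → lam v = lam' v) {m : ℕ} [NeZero (p ^ m)]
    {I : (Gal(Ω/K) → Gal(Ω/K) → Gal(Ω/K) → ZMod (p ^ m)) →+ AddCircle (1 : ℝ)}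
    (hI : Fnl p D L Q Fr lam m I) : Fnl p D L Q Fr lam' m I := by
  intro Ψ hL hR
  rw [hI Ψ hL hR]
  obtain ⟨R, _, _, ρ, ψ, -, -, h3, h4, h5⟩ := hL
  rw [ts_lam L Fr h (Ψ := Ψ) (fun σ => by rw [h5, map_one, h3]) (fun σ => by
    rw [h5, map_one, h4])]

end Pool.Agent.H19.AB
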