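import Pool.Agent.H19.AB.Mf

/-!
# [H19 AB BET] the homomorphisms of `H`

`β : H → ZMod p` a homomorphism. `jbet`: the value of `J` for `θ (β ∪ ee)`, computed with the lift for a product of uniformisers at good primes outside `T`.
`bet`: the coefficient `Af` of the character `-β ∘ φ'`.
-/

set_option autoImplicit false
set_option linter.dupNamespace false

open scoped NumberField
open IsDedekindDomain
open scoped Classical

noncomputable section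

namespace Pool.Agent.H19.AB

open H63.MA H38.BB H38.BG H57.PC H57.BRA H89.BRG H48.MF Pool.Agent.H19.NF

private theorem ac_sum {A : Type*} [AddCommMonoid A] (ψ : AddChar A ℂ) {ι : Type*} (s : Finset ι)
    (f : ι → A) : ψ (∑ i ∈ s, f i) = ∏ i ∈ s, ψ (f i) := by
  induction s using Finset.induction_on with
  | empty => rw [Finset.sum_empty, Finset.prod_empty, AddChar.map_zero_eq_one]
  | insert a s ha ih =>
    rw [Finset.sum_insert ha, Finset.prod_insert ha, AddChar.map_add_eq_mul, ih]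

variable {K : Type} [Field K] [NumberField K] {Ω : Type} [Field Ω] [Algebra K Ω]
  [IsAlgClosure K Ω] {p : ℕ} {ζ : K} {G H : Type} [Group G] [Group H]

/-- the 2-cochain `β ∪ et` of `G` -/
def be {M : Type} [AddCommGroup M] (θ : ZMod p →+ M) (E : CE p G H) (β : H → ZMod p) (x y : G) :
    M := θ (β (E.pi x) * E.et y)

/-- the torus of `β ∪ et` -/
def bb (E : CE p G H) (β : H → ZMod p) (s x : G) : ZMod p :=
  β (E.pi s) * E.et x - β (E.pi x) * E.et s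

theorem br_be {M : Type} [AddCommGroup M] (θ : ZMod p →+ M) (E : CE p G H) (β : H → ZMod p)
    (s x : G) : br (be θ E β) s x = θ (bb E β s x) := by
  unfold br be bb
  rw [← map_sub]

theorem be_nr {M : Type} [AddCommGroup M] (θ : ZMod p →+ M) (E : CE p G H) {β : H → ZMod p}
    (hβ : ∀ x y, β (x * y) = β x + β y) : Nr2 (be θ E β) := by
  have h0 : β 1 = 0 := by
    have h := hβ 1 1
    rw [mul_one] at h
    exact left_eq_add.1 h
  refine ⟨fun y => ?_, fun x => ?_⟩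
  · show θ (β (E.pi 1) * E.et y) = 0
    rw [map_one, h0, zero_mul, map_zero]
  · show θ (β (E.pi x) * E.et 1) = 0
    rw [E.et_one, mul_zero, map_zero]

theorem bb_i (E : CE p G H) (β : H → ZMod p) (s x : G) (a : ZMod p) :
    bb E β s (E.i a * x) = β (E.pi s) * a + bb E β s x := by
  unfold bb
  rw [E.et_i, map_mul, E.pi_i, one_mul]
  ring

/-- the product of uniformisers at `T₀` -/
def pT (D : RD0 K p ζ) (T₀ : Finset (Pl K)) (α : Pl K → ZMod p) : Kˣ :=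
  ∏ w ∈ T₀, D.pi w ^ ((α w).val : ℤ)

theorem pT_kk (hp : p.Prime) (hζ : IsPrimitiveRoot ζ p) (D : RD0 K p ζ) (T₀ : Finset (Pl K))
    (α : Pl K → ZMod p) (σ : Gal(Ω/K)) :
    kk p ζ (pT D T₀ α) σ = ∑ w ∈ T₀, α w * kk p ζ (D.pi w) σ := by
  have : NeZero p := ⟨hp.ne_zero⟩
  unfold pT
  rw [kk_prod_arg hp hζ]
  refine Finset.sum_congr rfl fun v _ => ?_
  rw [kk_zpow_arg hp hζ, Int.cast_natCast, ZMod.natCast_zmod_val]

theorem pT_qs (hp : p.Prime) (D : RD0 K p ζ) (T₀ : Finset (Pl K)) (h : ∀ w ∈ T₀, w ∉ D.S0)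
    (α : Pl K → ZMod p) : qs D (pT D T₀ α) = ∑ w ∈ T₀, α w • D.q w := by
  have : NeZero p := ⟨hp.ne_zero⟩
  unfold pT
  rw [qs_prod]
  refine Finset.sum_congr rfl fun w hw => ?_
  rw [zpow_natCast, qs_pow, ZMod.natCast_zmod_val, qs_pi D (h w hw)]

theorem pf_one (D : RD0 K p ζ) : pf D 1 = 1 := by
  have h := pf_mul D 1 1
  rw [mul_one] at h
  exact left_eq_mul.1 h

theorem pT_pf (D : RD0 K p ζ) (T₀ : Finset (Pl K)) (h : ∀ w ∈ T₀, w ∉ D.S0)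
    (α : Pl K → ZMod p) : pf D (pT D T₀ α) = pT D T₀ α := by
  have hpow : ∀ (x : Kˣ) (n : ℕ), pf D (x ^ n) = pf D x ^ n := by
    intro x n
    induction n with
    | zero => rw [pow_zero, pow_zero, pf_one]
    | succ n ih => rw [pow_succ, pow_succ, pf_mul, ih]
  unfold pT
  induction T₀ using Finset.induction_on with
  | empty => rw [Finset.prod_empty, pf_one]
  | insert a T ha ih =>
    rw [Finset.prod_insert ha, pf_mul, ih fun w hw => h w (Finset.mem_insert_of_mem hw),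
      zpow_natCast, hpow, pf_pi D (h a (Finset.mem_insert_self a T))]

/-- the values of the lifts at the `t_v` -/
theorem lr_tb (E : CE p G H) (hp : p.Prime) (hζ : IsPrimitiveRoot ζ p) {D : RD0 K p ζ}
    {L : LDs D Ω} {Q : DP K Ω} {φ₁ : Gal(Ω/K) →* G} {φ' : Gal(Ω/K) →* H} {s : Pl K → G}
    {c : Fin D.r → ZMod p} {ρ : Gal(Ω/K) →* G} (h : LR E L Q φ₁ φ' s c ρ) (T₀ : Finset (Pl K))
    (hT₀ : ∀ w ∈ T₀, w ∉ D.S0) (α : Pl K → ZMod p) {v : Pl K} (hv : v ∉ D.S0) :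
    tw E ρ (kc p ζ Ω (pT D T₀ α)) (L.t v) = E.i (if v ∈ T₀ then α v else 0) * s v := by
  rw [tw_apply, kk_kc, h.t v hv, pT_kk hp hζ]
  congr 2
  have e1 : ∀ w ∈ T₀, α w * kk p ζ (D.pi w) (L.t v) = if v = w then α w else 0 := by
    intro w hw
    by_cases hvw : v = w
    · rw [if_pos hvw, (kk_pi hp hζ D L w v (hT₀ w hw) hv).1 hvw.symm, mul_one]
    · rw [if_neg hvw, (kk_pi hp hζ D L w v (hT₀ w hw) hv).2 (fun h => hvw h.symm), mul_zero]
  rw [Finset.sum_congr rfl e1, Finset.sum_ite_eq]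

theorem lr_t (E : CE p G H) (hp : p.Prime) (hζ : IsPrimitiveRoot ζ p) {D : RD0 K p ζ}
    {L : LDs D Ω} {Q : DP K Ω} {φ₁ : Gal(Ω/K) →* G} {φ' : Gal(Ω/K) →* H} {s : Pl K → G}
    {c : Fin D.r → ZMod p} {ρ : Gal(Ω/K) →* G} (h : LR E L Q φ₁ φ' s c ρ) {w : Pl K}
    (hw : w ∉ D.S0) {v : Pl K} (hv : v ∉ D.S0) :
    tw E ρ (kc p ζ Ω (D.pi w)) (L.t v) = if v = w then E.i 1 * s v else s v := by
  rw [tw_apply, kk_kc, h.t v hv]
  by_cases hvw : v = w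
  · rw [if_pos hvw, (kk_pi hp hζ D L w v hw hv).1 hvw.symm]
  · rw [if_neg hvw, (kk_pi hp hζ D L w v hw hv).2 (fun h => hvw h.symm), E.i_zero, one_mul]

omit [IsAlgClosure K Ω] in
theorem lr_pi (E : CE p G H) {D : RD0 K p ζ}
    {L : LDs D Ω} {Q : DP K Ω} {φ₁ : Gal(Ω/K) →* G} {φ' : Gal(Ω/K) →* H} {s : Pl K → G}
    {c : Fin D.r → ZMod p} {ρ : Gal(Ω/K) →* G} (h : LR E L Q φ₁ φ' s c ρ)
    (χ : Gal(Ω/K) →* Multiplicative (ZMod p)) : E.pi.comp (tw E ρ χ) = φ' := by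
  rw [tw_pi, h.pi]

theorem val_th {M : Type} [AddCommGroup M] (hp : p.Prime) (θ : ZMod p →+ M) (l x : ZMod p) :
    l.val • θ x = θ (l * x) := by
  have : NeZero p := ⟨hp.ne_zero⟩
  rw [← map_nsmul, nsmul_eq_mul, ZMod.natCast_zmod_val]

omit [IsAlgClosure K Ω] in
/-- inertia of order `p` for a central twist -/
theorem tme_tw (E : CE p G H) (hp : p.Prime) {D : RD0 K p ζ} {L : LDs D Ω} {ρ : Gal(Ω/K) →* G}
    (hρ : Tme L ρ) (χ : Gal(Ω/K) →* Multiplicative (ZMod p)) : Tme L (tw E ρ χ) := by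
  intro v hv τ hτ
  rw [tw_apply]
  have h1 : ∀ (a : ZMod p) (x : G) (n : ℕ), (E.i a * x) ^ n = E.i (n * a) * x ^ n := by
    intro a x n
    induction n with
    | zero => rw [pow_zero, pow_zero, Nat.cast_zero, zero_mul, E.i_zero, one_mul]
    | succ n ih =>
      rw [pow_succ, ih, pow_succ, mul_assoc, ← mul_assoc (x ^ n), ← E.cent, mul_assoc, ← mul_assoc,
        ← E.i_add]
      congr 2
      push_cast
      ring
  have hF : Fact p.Prime := ⟨hp⟩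
  rw [h1, hρ v hv τ hτ, CharP.cast_eq_zero, zero_mul, E.i_zero, one_mul]

/-- the value of `J` for `θ (β ∪ ee)` -/
theorem jbet (E : CE p G H) (hp : p.Prime) (hζ : IsPrimitiveRoot ζ p) {D : RD0 K p ζ}
    {L : LDs D Ω} {Q : DP K Ω} {Fr : FR L} {lam : Pl K → ZMod p} (hone : ∀ v, D.Gd v → lam v = 1)
    {m : ℕ} [NeZero (p ^ m)]
    {I : (Gal(Ω/K) → Gal(Ω/K) → Gal(Ω/K) → ZMod (p ^ m)) →+ AddCircle (1 : ℝ)}
    (hI : Fnl p D L Q Fr lam m I) [Finite G] {φ₁ : Gal(Ω/K) →* G}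
    (h₁ : H38.ML.FT φ₁) (ht₁ : Tme L φ₁) {φ' : Gal(Ω/K) →* H} {s : Pl K → G}
    {c : Fin D.r → ZMod p}
    {ρ : Gal(Ω/K) →* G} (h : LR E L Q φ₁ φ' s c ρ) (hρt : Tme L ρ) {T : Finset (Pl K)}
    (hT : ∀ v ∈ T, v ∉ D.S0) (hs1 : ∀ v, v ∉ D.S0 → v ∉ T → s v = 1) {T₀ : Finset (Pl K)}
    (hT₀ : ∀ w ∈ T₀, D.Gd w ∧ w ∉ T) {α : Pl K → ZMod p}
    (hq : ∑ w ∈ T₀, α w • D.q w = c) (θ : ZMod p →+ ZMod (p ^ m)) {β : H → ZMod p}
    (hβ : ∀ x y, β (x * y) = β x + β y) :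
    JJ I (fun x y z => θ (β x * E.ee y z)) (E.pi.comp φ₁) φ' =
      ZMod.toAddCircle (TS L Fr lam (pl2 (be θ E β) φ₁)) -
      (∑ v ∈ T, ZMod.toAddCircle (θ (lam v *
          bb E β (s v) (tw E ρ (kc p ζ Ω (pT D T₀ α)) (Fr.F v)))) -
        ZMod.toAddCircle (θ (∑ w ∈ T₀, α w * β (φ' (Fr.F w))))) := by
  have hF : Fact p.Prime := ⟨hp⟩
  have hT₀' : ∀ w ∈ T₀, w ∉ D.S0 := fun w hw => (hT₀ w hw).1.1
  set φ := tw E ρ (kc p ζ Ω (pT D T₀ α)) with hφ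
  have hft : H38.ML.FT φ := tw_ft E h.ft (kc_ft hp hζ _)
  have hte : Teq D.S0 Q φ φ₁ := by
    have h2 := h.teq (pT D T₀ α) (by rw [pT_qs hp D T₀ hT₀' α, hq])
    rwa [pT_pf D T₀ hT₀' α] at h2
  have h2 := jj_d hp hI (be_nr θ E hβ) h₁ hft ht₁ (tme_tw E hp hρt _) hte
  have h3 : JJ I (d2 (be θ E β)) φ₁ φ =
      - JJ I (fun x y z => θ (β x * E.ee y z)) (E.pi.comp φ₁) φ' := by
    have e1 : d2 (be θ E β) = fun x y z => (0 : ZMod (p ^ m)) -
        θ (β (E.pi x) * E.ee (E.pi y) (E.pi z)) := by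
      funext x y z
      rw [zero_sub]
      exact cup_beta E hβ x y z
    rw [e1, jj_sub, jj_zero, zero_sub, jj_inf I E.pi (fun x y z => θ (β x * E.ee y z)),
      ← lr_pi E h (kc p ζ Ω (pT D T₀ α))]
  have h4 : TS L Fr lam (pl2 (be θ E β) φ) =
      ∑ v ∈ T, θ (lam v * bb E β (s v) (φ (Fr.F v))) -
        θ (∑ w ∈ T₀, α w * β (φ' (Fr.F w))) := by
    have hdis : Disjoint T T₀ := by
      rw [Finset.disjoint_left]
      intro v hv hv0
      exact (hT₀ v hv0).2 hv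
    rw [ts_pl L Fr lam (be_nr θ E hβ) φ (T ∪ T₀), Finset.sum_union hdis]
    · rw [sub_eq_add_neg]
      congr 1
      · refine Finset.sum_congr rfl fun v hv => ?_
        have hv0 : v ∉ T₀ := fun h' => (hT₀ v h').2 hv
        rw [br_be, val_th hp, hφ, lr_tb E hp hζ h T₀ hT₀' α (hT v hv), if_neg hv0, E.i_zero,
          one_mul]
      · rw [← map_neg, ← Finset.sum_neg_distrib, map_sum]
        refine Finset.sum_congr rfl fun w hw => ?_
        rw [hone w (hT₀ w hw).1, br_be, val_th hp, one_mul]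
        congr 1
        have e2 : φ (L.t w) = E.i (α w) := by
          rw [hφ, lr_tb E hp hζ h T₀ hT₀' α (hT₀' w hw), if_pos hw, hs1 w (hT₀' w hw) (hT₀ w hw).2,
            mul_one]
        have e3 : E.pi (φ (Fr.F w)) = φ' (Fr.F w) :=
          DFunLike.congr_fun (lr_pi E h (kc p ζ Ω (pT D T₀ α))) (Fr.F w)
        have h0 : β 1 = 0 := by
          have h := hβ 1 1
          rw [mul_one] at h
          exact left_eq_add.1 h
        unfold bb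
        rw [e2, E.pi_i, h0, zero_mul, e3, E.et_i', zero_sub, mul_comm]
    · intro v hv hvT
      rw [Finset.mem_union, not_or] at hvT
      rw [hφ, lr_tb E hp hζ h T₀ hT₀' α hv, if_neg hvT.2, hs1 v hv hvT.1, E.i_zero, one_mul]
  rw [h3, h4, map_sub, map_sum] at h2
  have h5 : ∀ a b c d : AddCircle (1 : ℝ), -a = b - c - d → a = d - (b - c) := by
    intro a b c d h
    rw [← neg_neg a, h]
    abel
  exact h5 _ _ _ _ h2

/-- the coefficient of `-β ∘ φ'` -/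
theorem bet [NeZero p] (E : CE p G H) (hp : p.Prime) (hp2 : MOne p K) (hζ : IsPrimitiveRoot ζ p)
    {D : RD K p ζ}
    (Xi : (Fin D.r → ZMod p) → (Gal(Ω/K) →* Multiplicative (ZMod p)))
    {L : LDs D.toRD0 Ω} {Q : DP K Ω} {Fr : FR L}
    (hXt : ∀ κ v, v ∉ D.S0 → Xi κ (L.t v) = 1)
    (hXi : ∀ κ w, D.Gd w → Multiplicative.toAdd (Xi κ (Fr.F w)) = ∑ i, κ i * D.q w i)
    {m : ℕ} [NeZero (p ^ m)]
    {I : (Gal(Ω/K) → Gal(Ω/K) → Gal(Ω/K) → ZMod (p ^ m)) →+ AddCircle (1 : ℝ)}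
    (hI : Fnl p D.toRD0 L Q Fr D.lam m I) [Finite G]
    {φ₁ : Gal(Ω/K) →* G} (h₁ : H38.ML.FT φ₁) (ht₁ : Tme L φ₁) {φ' : Gal(Ω/K) →* H}
    {s : Pl K → G} {c : Fin D.r → ZMod p} {ρ : Gal(Ω/K) →* G} (h : LR E L Q φ₁ φ' s c ρ)
    (hρt : Tme L ρ) {T : Finset (Pl K)} (hT : ∀ v ∈ T, v ∉ D.S0)
    (hs1 : ∀ v, v ∉ D.S0 → v ∉ T → s v = 1)
    {ψ : AddChar (ZMod p) ℂ} {e : AddChar (AddCircle (1 : ℝ)) ℂ}
    {θ : ZMod p →+ ZMod (p ^ m)} (hθ : ∀ a, e (ZMod.toAddCircle (θ a)) = ψ a)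
    (g : Pl K → G → ℂ) {β : H → ZMod p} (hβ : ∀ x y, β (x * y) = β x + β y)
    {k : T → ZMod p} {κ : Fin D.r → ZMod p}
    (hL : ∀ σ, Multiplicative.toAdd (Lam D Xi T k κ σ) = -β (φ' σ)) :
    Af D ψ E Fr c ρ g T k κ = ((p : ℂ) ^ D.r)⁻¹ *
      e (-ZMod.toAddCircle (TS L Fr D.lam (pl2 (be θ E β) φ₁))) *
      e (JJ I (fun x y z => θ (β x * E.ee y z)) (E.pi.comp φ₁) φ') *
      ∏ v ∈ T, ((p : ℂ)⁻¹ * ∑ a : ZMod p, g v (E.i a * ρ (Fr.F v)) *
        ψ (D.lam v * bb E β (s v) (E.i a * ρ (Fr.F v)))) := by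
  have hF : Fact p.Prime := ⟨hp⟩
  obtain ⟨T₀, hT₀, hsp⟩ := spn hp D.toRD0 T
  obtain ⟨α, hα⟩ := hsp c
  have hl : ∀ v, v ∉ D.S0 → D.lam v ≠ 0 := fun v hv => lam_ne hp hp2 hζ D L Q Fr hv
  have hk : ∀ v : T, k v = -(D.lam v.1 * β (E.pi (s v.1))) := by
    intro v
    have h2 := lam_t D Xi hp hζ L hXt hT k κ (hT v.1 v.2)
    rw [dif_pos v.2, hL] at h2
    have h3 : φ' (L.t v.1) = E.pi (s v.1) := by
      rw [← h.t v.1 (hT v.1 v.2)]
      exact (DFunLike.congr_fun h.pi (L.t v.1)).symm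
    rw [h3] at h2
    have h4 := hl v.1 (hT v.1 v.2)
    field_simp at h2
    linear_combination -h2
  have e1 : ∀ v ∈ T, (p : ℂ)⁻¹ * ∑ a : ZMod p, g v (E.i a * ρ (Fr.F v)) *
        ψ (D.lam v * bb E β (s v) (E.i a * ρ (Fr.F v))) =
      fh ψ E (g v) (ρ (Fr.F v)) (-(D.lam v * β (E.pi (s v)))) *
        ψ (D.lam v * bb E β (s v) (ρ (Fr.F v))) := by
    intro v _
    unfold fh
    rw [mul_assoc, Finset.sum_mul]
    congr 1
    refine Finset.sum_congr rfl fun a _ => ?_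
    rw [bb_i, mul_add, AddChar.map_add_eq_mul, neg_mul, neg_neg, mul_assoc (D.lam v)]
    ring
  rw [Finset.prod_congr rfl e1, jbet E hp hζ D.lam_one hI h₁ ht₁ h hρt hT hs1 hT₀ hα.symm θ hβ,
    mul_assoc (_⁻¹), ← AddChar.map_add_eq_mul]
  have e2 : ∀ a b c : AddCircle (1 : ℝ), -a + (a - (b - c)) = c + -b := by
    intro a b c
    abel
  rw [e2, AddChar.map_add_eq_mul, hθ, ← Finset.sum_neg_distrib, ac_sum e]
  have e3 : ∀ v ∈ T, e (-ZMod.toAddCircle (θ (D.lam v * bb E β (s v)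
      (tw E ρ (kc p ζ Ω (pT D.toRD0 T₀ α)) (Fr.F v))))) =
      ψ (-(D.lam v * β (E.pi (s v)) * kk p ζ (pT D.toRD0 T₀ α) (Fr.F v))) *
        ψ (-(D.lam v * bb E β (s v) (ρ (Fr.F v)))) := by
    intro v _
    rw [← map_neg, ← map_neg, hθ, tw_apply, kk_kc, bb_i, mul_add, neg_add,
      AddChar.map_add_eq_mul, mul_assoc]
  rw [Finset.prod_congr rfl e3, mul_assoc, mul_assoc (ψ _), ← Finset.prod_mul_distrib]
  have e7 : ∀ v ∈ T, kk p ζ (pT D.toRD0 T₀ α) (Fr.F v) =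
      (D.lam v)⁻¹ * ∑ w ∈ T₀, α w * kk p ζ (D.pi v) (Fr.F w) + ev D c v := by
    intro v hv
    rw [pT_kk hp hζ, hα, ← ev_sum, Finset.mul_sum, ← Finset.sum_add_distrib]
    refine Finset.sum_congr rfl fun w hw => ?_
    rw [ll_sym hp hp2 hζ Q Fr (hT v hv) (hT₀ w hw).1]
    ring
  have e4 : ∀ v ∈ T, ψ (-(D.lam v * β (E.pi (s v)) * kk p ζ (pT D.toRD0 T₀ α) (Fr.F v))) *
      ψ (-(D.lam v * bb E β (s v) (ρ (Fr.F v)))) *
      (fh ψ E (g v) (ρ (Fr.F v)) (-(D.lam v * β (E.pi (s v)))) *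
        ψ (D.lam v * bb E β (s v) (ρ (Fr.F v)))) =
      (fh ψ E (g v) (ρ (Fr.F v)) (-(D.lam v * β (E.pi (s v)))) *
        ψ (-(D.lam v * β (E.pi (s v))) * ev D c v)) *
        ψ (-(D.lam v * β (E.pi (s v))) * (D.lam v)⁻¹ *
          ∑ w ∈ T₀, α w * kk p ζ (D.pi v) (Fr.F w)) := by
    intro v hv
    have h3 : ψ (-(D.lam v * bb E β (s v) (ρ (Fr.F v)))) *
        ψ (D.lam v * bb E β (s v) (ρ (Fr.F v))) = 1 := by
      rw [← AddChar.map_add_eq_mul, neg_add_cancel, AddChar.map_zero_eq_one]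
    have h4 : ψ (-(D.lam v * β (E.pi (s v)) * kk p ζ (pT D.toRD0 T₀ α) (Fr.F v))) =
        ψ (-(D.lam v * β (E.pi (s v))) * ev D c v) *
          ψ (-(D.lam v * β (E.pi (s v))) * (D.lam v)⁻¹ *
            ∑ w ∈ T₀, α w * kk p ζ (D.pi v) (Fr.F w)) := by
      rw [← AddChar.map_add_eq_mul, e7 v hv]
      congr 1
      ring
    rw [h4]
    linear_combination (ψ (-(D.lam v * β (E.pi (s v))) * ev D c v) *
      ψ (-(D.lam v * β (E.pi (s v))) * (D.lam v)⁻¹ *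
        ∑ w ∈ T₀, α w * kk p ζ (D.pi v) (Fr.F w)) *
      fh ψ E (g v) (ρ (Fr.F v)) (-(D.lam v * β (E.pi (s v))))) * h3
  rw [Finset.prod_congr rfl e4, Finset.prod_mul_distrib]
  unfold Af
  rw [mul_assoc]
  congr 1
  have e5 : ∏ v : T, (fh ψ E (g v.1) (ρ (Fr.F v.1)) (k v) * ψ (k v * ev D c v.1)) =
      ∏ v ∈ T, (fh ψ E (g v) (ρ (Fr.F v)) (-(D.lam v * β (E.pi (s v)))) *
        ψ (-(D.lam v * β (E.pi (s v))) * ev D c v)) := by
    rw [← Finset.prod_coe_sort T]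
    refine Finset.prod_congr rfl fun v _ => ?_
    rw [hk v]
  have e6 : -∑ i, κ i * c i = ∑ w ∈ T₀, α w * β (φ' (Fr.F w)) + ∑ v ∈ T,
      -(D.lam v * β (E.pi (s v))) * (D.lam v)⁻¹ *
        ∑ w ∈ T₀, α w * kk p ζ (D.pi v) (Fr.F w) := by
    have h3 : ∀ w ∈ T₀, ∑ v ∈ T, -(D.lam v * β (E.pi (s v))) * (D.lam v)⁻¹ *
        kk p ζ (D.pi v) (Fr.F w) + ∑ i, κ i * D.q w i = -β (φ' (Fr.F w)) := by
      intro w hw
      rw [← hL (Fr.F w), lam_toAdd D Xi hp hζ, hXi κ w (hT₀ w hw).1, ← Finset.sum_coe_sort T]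
      congr 1
      refine Finset.sum_congr rfl fun v _ => ?_
      rw [hk v]
    have h4 : ∑ i, κ i * c i = ∑ w ∈ T₀, α w * ∑ i, κ i * D.q w i := by
      rw [hα]
      simp only [Finset.sum_apply, Pi.smul_apply, smul_eq_mul, Finset.mul_sum]
      rw [Finset.sum_comm]
      refine Finset.sum_congr rfl fun w _ => Finset.sum_congr rfl fun i _ => ?_
      ring
    have h5 : ∑ v ∈ T, -(D.lam v * β (E.pi (s v))) * (D.lam v)⁻¹ *
        ∑ w ∈ T₀, α w * kk p ζ (D.pi v) (Fr.F w) =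
        ∑ w ∈ T₀, α w * ∑ v ∈ T, -(D.lam v * β (E.pi (s v))) * (D.lam v)⁻¹ *
          kk p ζ (D.pi v) (Fr.F w) := by
      simp only [Finset.mul_sum]
      rw [Finset.sum_comm]
      refine Finset.sum_congr rfl fun w _ => Finset.sum_congr rfl fun i _ => ?_
      ring
    rw [h4, h5, ← Finset.sum_neg_distrib, ← Finset.sum_add_distrib]
    refine Finset.sum_congr rfl fun w hw => ?_
    linear_combination (-(α w)) * h3 w hw
  rw [e5, e6, AddChar.map_add_eq_mul, ac_sum ψ T]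
  ring

end Pool.Agent.H19.AB
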