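import Pool.Agent.H19.AB.Spn
import Pool.Agent.H19.AB.Jf

/-!
# [H19 AB MF] the dependence on the new prime

`LR`: the record given by `lift_ex` (homomorphism `ρ` with `φ^w = tw E ρ (kc (pi w))`).
`fh`: Fourier coefficients along the centre. `mf`: `T` a finite set of primes outside `S0`; for `w` good the function `[q w = c] ∏_(v ∈ T) g_v (φ^w (F_v))` is a linear combination of
characters `Lam k κ` of `F_w`, unramified outside `S0 ∪ T`. `lam_inj`, `lam_all`: these characters are different and all occur.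
`bet`: the coefficient of `-β ∘ φ'`.
-/

set_option autoImplicit false
set_option linter.dupNamespace false

open scoped NumberField
open IsDedekindDomain
open scoped Classical

noncomputable section

namespace Pool.Agent.H19.AB

open H63.MA H38.BB H38.BG H57.PC H57.BRA H89.BRG H48.MF Pool.Agent.H19.NF

private theorem ac_sum {A : Type*} [AddCommMonoid A] (ψ : AddChar A ℂ) {ι : Type*} (s : Finset ι)
    (f : ι → A) : ψ (∑ i ∈ s, f i) = ∏ i ∈ s, ψ (f i) := by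
  induction s using Finset.induction_on with
  | empty => rw [Finset.sum_empty, Finset.prod_empty, AddChar.map_zero_eq_one]
  | insert a s ha ih =>
    rw [Finset.sum_insert ha, Finset.prod_insert ha, AddChar.map_add_eq_mul, ih]

section four

variable {p : ℕ} [NeZero p] {G H : Type} [Group G] [Group H]

/-- Fourier coefficients along the centre -/
def fh (ψ : AddChar (ZMod p) ℂ) (E : CE p G H) (g : G → ℂ) (x : G) (k : ZMod p) : ℂ :=
  (p : ℂ)⁻¹ * ∑ a : ZMod p, g (E.i a * x) * ψ (-(k * a))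

theorem fh_inv (hp : p.Prime) {ψ : AddChar (ZMod p) ℂ} (hψ : ψ.IsPrimitive) (E : CE p G H)
    (g : G → ℂ) (x : G) (b : ZMod p) :
    g (E.i b * x) = ∑ k : ZMod p, fh ψ E g x k * ψ (k * b) := by
  have hF : Fact p.Prime := ⟨hp⟩
  have hp0 : (p : ℂ) ≠ 0 := by exact_mod_cast hp.ne_zero
  have e1 : ∀ k : ZMod p, fh ψ E g x k * ψ (k * b) =
      (p : ℂ)⁻¹ * ∑ a : ZMod p, g (E.i a * x) * ψ (k * (b - a)) := by
    intro k
    unfold fh
    rw [mul_assoc, Finset.sum_mul]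
    congr 1
    refine Finset.sum_congr rfl fun a _ => ?_
    rw [mul_assoc, ← AddChar.map_add_eq_mul]
    congr 2
    ring
  rw [Finset.sum_congr rfl fun k _ => e1 k, ← Finset.mul_sum, Finset.sum_comm]
  have e2 : ∀ a : ZMod p, ∑ k : ZMod p, g (E.i a * x) * ψ (k * (b - a)) =
      if a = b then g (E.i a * x) * p else 0 := by
    intro a
    rw [← Finset.mul_sum, AddChar.sum_mulShift _ hψ, ZMod.card]
    by_cases h : a = b
    · rw [if_pos h, if_pos (sub_eq_zero.2 h.symm)]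
    · rw [if_neg h, if_neg (fun h' => h (sub_eq_zero.1 h').symm), Nat.cast_zero, mul_zero]
  rw [Finset.sum_congr rfl fun a _ => e2 a, Finset.sum_ite_eq', if_pos (Finset.mem_univ _)]
  field_simp

theorem fh_norm (hp : p.Prime) (ψ : AddChar (ZMod p) ℂ) (E : CE p G H) {g : G → ℂ} {B : ℝ}
    (hg : ∀ x, ‖g x‖ ≤ B) (x : G) (k : ZMod p) : ‖fh ψ E g x k‖ ≤ B := by
  have hF : Fact p.Prime := ⟨hp⟩
  have hp0 : (0 : ℝ) < p := by exact_mod_cast hp.pos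
  unfold fh
  rw [norm_mul, norm_inv, Complex.norm_natCast, inv_mul_le_iff₀ hp0]
  refine (norm_sum_le _ _).trans ?_
  have h : ∀ a ∈ (Finset.univ : Finset (ZMod p)), ‖g (E.i a * x) * ψ (-(k * a))‖ ≤ B := by
    intro a _
    rw [norm_mul]
    have h1 : ‖ψ (-(k * a))‖ = 1 := AddChar.norm_apply ψ _
    rw [h1, mul_one]
    exact hg _
  refine (Finset.sum_le_sum h).trans (le_of_eq ?_)
  rw [Finset.sum_const, Finset.card_univ, ZMod.card, nsmul_eq_mul]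

theorem fh_ne {ψ : AddChar (ZMod p) ℂ} {E : CE p G H} {g : G → ℂ} {x : G} {k : ZMod p}
    (h : fh ψ E g x k ≠ 0) : ∃ a : ZMod p, g (E.i a * x) ≠ 0 := by
  by_contra hcon
  push Not at hcon
  apply h
  unfold fh
  rw [Finset.sum_eq_zero fun a _ => by rw [hcon a, zero_mul], mul_zero]

end four

variable {K : Type} [Field K] [NumberField K] {Ω : Type} [Field Ω] [Algebra K Ω]
  [IsAlgClosure K Ω] {p : ℕ} {ζ : K} {G H : Type} [Group G] [Group H]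

/-- the record of the lifts of `φ'` with the values `s` (see `lr_ex`) -/
structure LR {D : RD0 K p ζ} (E : CE p G H) (L : LDs D Ω) (Q : DP K Ω) (φ₁ : Gal(Ω/K) →* G)
    (φ' : Gal(Ω/K) →* H) (s : Pl K → G) (c : Fin D.r → ZMod p) (ρ : Gal(Ω/K) →* G) : Prop where
  ft : H38.ML.FT ρ
  pi : E.pi.comp ρ = φ'
  t : ∀ v, v ∉ D.S0 → ρ (L.t v) = s v
  teq : ∀ x : Kˣ, qs D x = c → Teq D.S0 Q (tw E ρ (kc p ζ Ω (pf D x))) φ₁

omit [IsAlgClosure K Ω] in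
theorem LR.teqw {D : RD0 K p ζ} {E : CE p G H} {L : LDs D Ω} {Q : DP K Ω} {φ₁ : Gal(Ω/K) →* G}
    {φ' : Gal(Ω/K) →* H} {s : Pl K → G} {c : Fin D.r → ZMod p} {ρ : Gal(Ω/K) →* G}
    (h : LR E L Q φ₁ φ' s c ρ) {w : Pl K} (hw : w ∉ D.S0) (hq : D.q w = c) :
    Teq D.S0 Q (tw E ρ (kc p ζ Ω (D.pi w))) φ₁ := by
  have h2 := h.teq (D.pi w) (by rw [qs_pi D hw, hq])
  rwa [pf_pi D hw] at h2

theorem lr_ex (E : CE p G H) (hp : p.Prime) (hp2 : MOne p K) (hζ : IsPrimitiveRoot ζ p)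
    (hz : Z2 p K) {D : RD0 K p ζ} {L : LDs D Ω} (Q : DP K Ω) (Fr : FR L) [Finite G]
    {φ₁ : Gal(Ω/K) →* G} (h₁ : H38.ML.FT φ₁) {φ' : Gal(Ω/K) →* H} (h' : H38.ML.FT φ')
    (ht' : Tme L φ')
    (hT : Teq D.S0 Q φ' (E.pi.comp φ₁)) (T : Finset (Pl K)) (s : Pl K → G)
    (hs : ∀ v, v ∉ D.S0 → E.pi (s v) = φ' (L.t v)) (hs1 : ∀ v, v ∉ D.S0 → v ∉ T → s v = 1)
    (hbr : ∀ v ∈ T, br E.ee (φ' (L.t v)) (φ' (Fr.F v)) = 0) :
    ∃ (c : Fin D.r → ZMod p) (ρ : Gal(Ω/K) →* G), LR E L Q φ₁ φ' s c ρ ∧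
      ∀ w, w ∉ D.S0 → w ∉ T → ∀ φ : Gal(Ω/K) →* G, H38.ML.FT φ → E.pi.comp φ = φ' →
        (∀ v, v ∉ D.S0 → v ≠ w → φ (L.t v) = s v) → φ (L.t w) = E.i 1 → Teq D.S0 Q φ φ₁ →
          D.q w = c ∧ φ = tw E ρ (kc p ζ Ω (D.pi w)) := by
  obtain ⟨c, ρ, h1, h2, h3, h4, h5⟩ := lift_ex E hp hp2 hζ hz Q Fr h₁ h' ht' hT T s hs hs1 hbr
  exact ⟨c, ρ, ⟨h1, h2, h3, h4⟩, h5⟩

section mf

variable [NeZero p] (D : RD K p ζ) (Xi : (Fin D.r → ZMod p) → (Gal(Ω/K) →* Multiplicative (ZMod p)))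

/-- the product of uniformisers -/
def pk (D : RD K p ζ) (T : Finset (Pl K)) (k : T → ZMod p) : Kˣ :=
  ∏ v : T, D.pi v.1 ^ ((k v * (D.lam v.1)⁻¹).val : ℤ)

/-- the characters -/
def Lam (T : Finset (Pl K)) (k : T → ZMod p) (κ : Fin D.r → ZMod p) :
    Gal(Ω/K) →* Multiplicative (ZMod p) := kc p ζ Ω (pk D T k) * Xi κ

/-- the coefficients -/
def Af (ψ : AddChar (ZMod p) ℂ) (E : CE p G H) {L : LDs D.toRD0 Ω} (Fr : FR L)
    (c : Fin D.r → ZMod p) (ρ : Gal(Ω/K) →* G) (g : Pl K → G → ℂ) (T : Finset (Pl K))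
    (k : T → ZMod p) (κ : Fin D.r → ZMod p) : ℂ :=
  ((p : ℂ) ^ D.r)⁻¹ * ψ (-∑ i, κ i * c i) *
    ∏ v : T, (fh ψ E (g v.1) (ρ (Fr.F v.1)) (k v) * ψ (k v * ev D c v.1))

theorem pk_kk (hp : p.Prime) (hζ : IsPrimitiveRoot ζ p) (T : Finset (Pl K)) (k : T → ZMod p)
    (σ : Gal(Ω/K)) : kk p ζ (pk D T k) σ = ∑ v : T, k v * (D.lam v.1)⁻¹ * kk p ζ (D.pi v.1) σ := by
  unfold pk
  rw [kk_prod_arg hp hζ]
  refine Finset.sum_congr rfl fun v _ => ?_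
  rw [kk_zpow_arg hp hζ, Int.cast_natCast, ZMod.natCast_zmod_val]

theorem lam_toAdd (hp : p.Prime) (hζ : IsPrimitiveRoot ζ p) (T : Finset (Pl K)) (k : T → ZMod p)
    (κ : Fin D.r → ZMod p) (σ : Gal(Ω/K)) :
    Multiplicative.toAdd (Lam D Xi T k κ σ) =
      ∑ v : T, k v * (D.lam v.1)⁻¹ * kk p ζ (D.pi v.1) σ + Multiplicative.toAdd (Xi κ σ) := by
  unfold Lam
  rw [MonoidHom.mul_apply, toAdd_mul, kk_kc, pk_kk D hp hζ]

omit [NeZero p] in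
theorem lam_ft (hp : p.Prime) (hζ : IsPrimitiveRoot ζ p) (hXi : ∀ κ, H38.ML.FT (Xi κ))
    (T : Finset (Pl K)) (k : T → ZMod p) (κ : Fin D.r → ZMod p) :
    H38.ML.FT (Lam D Xi T k κ) := by
  obtain ⟨E, hE, hE2⟩ := ft_prod (kc_ft (Ω := Ω) hp hζ (pk D T k)) (hXi κ)
  refine ⟨E, hE, fun u hu => ?_⟩
  have h1 : ((kc p ζ Ω (pk D T k)).prod (Xi κ)) u = 1 := MonoidHom.mem_ker.1 (hE2 hu)
  have h2 : kc p ζ Ω (pk D T k) u = 1 := congrArg Prod.fst h1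
  have h3 : Xi κ u = 1 := congrArg Prod.snd h1
  rw [MonoidHom.mem_ker, Lam, MonoidHom.mul_apply, h2, h3, mul_one]

/-- the value at `t_w` -/
theorem lam_t (hp : p.Prime) (hζ : IsPrimitiveRoot ζ p) (L : LDs D.toRD0 Ω)
    (hXi : ∀ κ v, v ∉ D.S0 → Xi κ (L.t v) = 1) {T : Finset (Pl K)} (hT : ∀ v ∈ T, v ∉ D.S0)
    (k : T → ZMod p) (κ : Fin D.r → ZMod p) {w : Pl K} (hw : w ∉ D.S0) :
    Multiplicative.toAdd (Lam D Xi T k κ (L.t w)) =
      if h : w ∈ T then k ⟨w, h⟩ * (D.lam w)⁻¹ else 0 := by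
  rw [lam_toAdd D Xi hp hζ, hXi κ w hw, toAdd_one, add_zero]
  by_cases h : w ∈ T
  · rw [dif_pos h, Finset.sum_eq_single (⟨w, h⟩ : T)]
    · rw [(kk_pi hp hζ D.toRD0 L w w hw hw).1 rfl, mul_one]
    · intro b _ hb
      rw [(kk_pi hp hζ D.toRD0 L b.1 w (hT b.1 b.2) hw).2 (fun h' => hb (Subtype.ext h')), mul_zero]
    · intro h'
      exact absurd (Finset.mem_univ _) h'
  · rw [dif_neg h]
    refine Finset.sum_eq_zero fun b _ => ?_
    rw [(kk_pi hp hζ D.toRD0 L b.1 w (hT b.1 b.2) hw).2 (fun h' => h (h' ▸ b.2)), mul_zero]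

/-- orthogonality -/
theorem q_ind (hp : p.Prime) {ψ : AddChar (ZMod p) ℂ} (hψ : ψ.IsPrimitive) {r : ℕ}
    (x c : Fin r → ZMod p) :
    ∑ κ : Fin r → ZMod p, ψ (-∑ i, κ i * c i) * ψ (∑ i, κ i * x i) =
      if x = c then (p : ℂ) ^ r else 0 := by
  have hF : Fact p.Prime := ⟨hp⟩
  have e1 : ∀ κ : Fin r → ZMod p, ψ (-∑ i, κ i * c i) * ψ (∑ i, κ i * x i) =
      ∏ i, ψ (κ i * (x i - c i)) := by
    intro κ
    rw [← AddChar.map_add_eq_mul, ← ac_sum]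
    congr 1
    rw [neg_add_eq_sub, ← Finset.sum_sub_distrib]
    refine Finset.sum_congr rfl fun i _ => ?_
    ring
  rw [Finset.sum_congr rfl fun κ _ => e1 κ]
  have e2 : ∑ κ : Fin r → ZMod p, ∏ i, ψ (κ i * (x i - c i)) =
      ∏ i, ∑ a : ZMod p, ψ (a * (x i - c i)) := by
    rw [Finset.prod_univ_sum, Fintype.piFinset_univ]
  rw [e2]
  by_cases h : x = c
  · rw [if_pos h, h]
    have e3 : ∀ i ∈ (Finset.univ : Finset (Fin r)), ∑ a : ZMod p, ψ (a * (c i - c i)) = p := by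
      intro i _
      rw [AddChar.sum_mulShift _ hψ, if_pos (sub_self _), ZMod.card]
    rw [Finset.prod_congr rfl e3, Finset.prod_const, Finset.card_univ, Fintype.card_fin]
  · rw [if_neg h]
    obtain ⟨i, hi⟩ : ∃ i, x i ≠ c i := by
      by_contra h'
      push Not at h'
      exact h (funext h')
    refine Finset.prod_eq_zero (Finset.mem_univ i) ?_
    rw [AddChar.sum_mulShift _ hψ, if_neg (sub_ne_zero.2 hi), Nat.cast_zero]

/-- the expansion -/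
theorem mf (hp : p.Prime) (hp2 : MOne p K) (hζ : IsPrimitiveRoot ζ p) {ψ : AddChar (ZMod p) ℂ}
    (hψ : ψ.IsPrimitive) (E : CE p G H) {L : LDs D.toRD0 Ω} (Q : DP K Ω) (Fr : FR L)
    (hXi : ∀ κ w, D.Gd w → Multiplicative.toAdd (Xi κ (Fr.F w)) = ∑ i, κ i * D.q w i)
    (c : Fin D.r → ZMod p) (ρ : Gal(Ω/K) →* G) (g : Pl K → G → ℂ) (T : Finset (Pl K))
    (hT : ∀ v ∈ T, v ∉ D.S0) {w : Pl K} (hw : D.Gd w) :
    (if D.q w = c then ∏ v ∈ T, g v (tw E ρ (kc p ζ Ω (D.pi w)) (Fr.F v)) else 0) =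
      ∑ k : T → ZMod p, ∑ κ : Fin D.r → ZMod p, Af D ψ E Fr c ρ g T k κ *
        ψ (Multiplicative.toAdd (Lam D Xi T k κ (Fr.F w))) := by
  have hF : Fact p.Prime := ⟨hp⟩
  have hp0 : (p : ℂ) ≠ 0 := by exact_mod_cast hp.ne_zero
  have e1 : ∀ (k : T → ZMod p) (κ : Fin D.r → ZMod p), Af D ψ E Fr c ρ g T k κ *
      ψ (Multiplicative.toAdd (Lam D Xi T k κ (Fr.F w))) =
      (∏ v : T, fh ψ E (g v.1) (ρ (Fr.F v.1)) (k v) *
        ψ (k v * ((D.lam v.1)⁻¹ * kk p ζ (D.pi v.1) (Fr.F w) + ev D c v.1))) *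
      (((p : ℂ) ^ D.r)⁻¹ * (ψ (-∑ i, κ i * c i) * ψ (∑ i, κ i * D.q w i))) := by
    intro k κ
    rw [lam_toAdd D Xi hp hζ, hXi κ w hw, AddChar.map_add_eq_mul, ac_sum]
    unfold Af
    have e2 : ∀ v : T, fh ψ E (g v.1) (ρ (Fr.F v.1)) (k v) *
        ψ (k v * ((D.lam v.1)⁻¹ * kk p ζ (D.pi v.1) (Fr.F w) + ev D c v.1)) =
        (fh ψ E (g v.1) (ρ (Fr.F v.1)) (k v) * ψ (k v * ev D c v.1)) *
          ψ (k v * (D.lam v.1)⁻¹ * kk p ζ (D.pi v.1) (Fr.F w)) := by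
      intro v
      rw [mul_add, AddChar.map_add_eq_mul, mul_assoc (k v)]
      ring
    rw [Finset.prod_congr rfl fun v _ => e2 v, Finset.prod_mul_distrib (f := fun v : T =>
      fh ψ E (g v.1) (ρ (Fr.F v.1)) (k v) * ψ (k v * ev D c v.1))]
    ring
  simp_rw [e1]
  simp_rw [← Finset.mul_sum]
  rw [← Finset.sum_mul, q_ind hp hψ]
  by_cases h : D.q w = c
  · rw [if_pos h, if_pos h, inv_mul_cancel₀ (pow_ne_zero _ hp0), mul_one]
    have e3 : ∑ k : T → ZMod p, ∏ v : T, fh ψ E (g v.1) (ρ (Fr.F v.1)) (k v) *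
        ψ (k v * ((D.lam v.1)⁻¹ * kk p ζ (D.pi v.1) (Fr.F w) + ev D c v.1)) =
        ∏ v : T, ∑ a : ZMod p, fh ψ E (g v.1) (ρ (Fr.F v.1)) a *
          ψ (a * ((D.lam v.1)⁻¹ * kk p ζ (D.pi v.1) (Fr.F w) + ev D c v.1)) := by
      rw [Finset.prod_univ_sum, Fintype.piFinset_univ]
    rw [e3, ← Finset.prod_coe_sort]
    refine Finset.prod_congr rfl fun v _ => ?_
    rw [← fh_inv hp hψ, tw_apply, kk_kc]
    congr 3
    rw [ll_sym hp hp2 hζ Q Fr (hT v.1 v.2) hw, h]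
  · rw [if_neg h, if_neg h, mul_zero, mul_zero]

omit [IsAlgClosure K Ω] in
/-- the size of the coefficients -/
theorem af_norm (hp : p.Prime) (ψ : AddChar (ZMod p) ℂ) (E : CE p G H) {L : LDs D.toRD0 Ω}
    (Fr : FR L) (c : Fin D.r → ZMod p) (ρ : Gal(Ω/K) →* G) {g : Pl K → G → ℂ} {B : ℝ}
    (hg : ∀ v x, ‖g v x‖ ≤ B) (T : Finset (Pl K)) (k : T → ZMod p) (κ : Fin D.r → ZMod p) :
    ‖Af D ψ E Fr c ρ g T k κ‖ ≤ ((p : ℝ) ^ D.r)⁻¹ * B ^ T.card := by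
  have hF : Fact p.Prime := ⟨hp⟩
  have hp0 : (0 : ℝ) < p := by exact_mod_cast hp.pos
  unfold Af
  rw [norm_mul, norm_mul, norm_inv, norm_pow, Complex.norm_natCast, AddChar.norm_apply, mul_one,
    norm_prod]
  refine mul_le_mul_of_nonneg_left ?_ (by positivity)
  have h1 : ∏ v : T, ‖fh ψ E (g v.1) (ρ (Fr.F v.1)) (k v) * ψ (k v * ev D c v.1)‖ ≤
      ∏ _v : T, B := by
    refine Finset.prod_le_prod (fun _ _ => norm_nonneg _) fun v _ => ?_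
    rw [norm_mul, AddChar.norm_apply, mul_one]
    exact fh_norm hp ψ E (hg _) _ _
  rwa [Finset.prod_const, Finset.card_univ, Fintype.card_coe] at h1

/-- the characters are different -/
theorem lam_inj (hp : p.Prime) (hζ : IsPrimitiveRoot ζ p) (L : LDs D.toRD0 Ω)
    (hl : ∀ v, v ∉ D.S0 → D.lam v ≠ 0)
    (hXt : ∀ κ v, v ∉ D.S0 → Xi κ (L.t v) = 1) (hXu : Function.Injective Xi)
    {T : Finset (Pl K)} (hT : ∀ v ∈ T, v ∉ D.S0) {k k' : T → ZMod p} {κ κ' : Fin D.r → ZMod p}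
    (h : Lam D Xi T k κ = Lam D Xi T k' κ') : k = k' ∧ κ = κ' := by
  have hF : Fact p.Prime := ⟨hp⟩
  have hk : k = k' := by
    funext v
    have h1 := lam_t D Xi hp hζ L hXt hT k κ (hT v.1 v.2)
    have h2 := lam_t D Xi hp hζ L hXt hT k' κ' (hT v.1 v.2)
    rw [h, h2, dif_pos v.2, dif_pos v.2] at h1
    exact (mul_right_cancel₀ (inv_ne_zero (hl v.1 (hT v.1 v.2))) h1).symm
  refine ⟨hk, hXu ?_⟩
  unfold Lam at h
  rw [hk] at h
  exact mul_left_cancel h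

/-- all characters occur -/
theorem lam_all (hp : p.Prime) (hζ : IsPrimitiveRoot ζ p) (L : LDs D.toRD0 Ω)
    (hl : ∀ v, v ∉ D.S0 → D.lam v ≠ 0)
    (hall : ∀ ξ : Gal(Ω/K) →* Multiplicative (ZMod p), H38.ML.FT ξ →
        (∀ v, v ∉ D.S0 → ξ (L.t v) = 1) → ∃ κ, ξ = Xi κ)
    {T : Finset (Pl K)} (hT : ∀ v ∈ T, v ∉ D.S0) (χ : Gal(Ω/K) →* Multiplicative (ZMod p))
    (hχ : H38.ML.FT χ) (hu : ∀ v, v ∉ D.S0 → v ∉ T → χ (L.t v) = 1) :
    ∃ (k : T → ZMod p) (κ : Fin D.r → ZMod p), χ = Lam D Xi T k κ := by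
  have hF : Fact p.Prime := ⟨hp⟩
  let k : T → ZMod p := fun v => Multiplicative.toAdd (χ (L.t v.1)) * D.lam v.1
  have hk : ∀ v, v ∉ D.S0 → kk p ζ (pk D T k) (L.t v) =
      Multiplicative.toAdd (χ (L.t v)) := by
    intro v hv
    rw [pk_kk D hp hζ]
    by_cases h : v ∈ T
    · rw [Finset.sum_eq_single (⟨v, h⟩ : T)]
      · rw [(kk_pi hp hζ D.toRD0 L v v hv hv).1 rfl, mul_one]
        exact mul_inv_cancel_right₀ (hl v hv) _
      · intro b _ hb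
        rw [(kk_pi hp hζ D.toRD0 L b.1 v (hT b.1 b.2) hv).2 (fun h' => hb (Subtype.ext h')),
          mul_zero]
      · intro h'
        exact absurd (Finset.mem_univ _) h'
    · rw [hu v hv h, toAdd_one]
      refine Finset.sum_eq_zero fun b _ => ?_
      rw [(kk_pi hp hζ D.toRD0 L b.1 v (hT b.1 b.2) hv).2 (fun h' => h (h' ▸ b.2)), mul_zero]
  obtain ⟨κ, hκ⟩ := hall (χ * (kc p ζ Ω (pk D T k))⁻¹) (by
    obtain ⟨E, hE, hE2⟩ := ft_prod (kc_ft (Ω := Ω) hp hζ (pk D T k)) hχ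
    refine ⟨E, hE, fun u hu => ?_⟩
    have h1 : ((kc p ζ Ω (pk D T k)).prod χ) u = 1 := MonoidHom.mem_ker.1 (hE2 hu)
    have h2 : kc p ζ Ω (pk D T k) u = 1 := congrArg Prod.fst h1
    have h3 : χ u = 1 := congrArg Prod.snd h1
    rw [MonoidHom.mem_ker, MonoidHom.mul_apply, MonoidHom.inv_apply, h2, h3, inv_one, mul_one])
    (fun v hv => by
      apply Multiplicative.toAdd.injective
      rw [MonoidHom.mul_apply, MonoidHom.inv_apply, toAdd_mul, toAdd_inv, kk_kc, hk v hv,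
        add_neg_cancel, toAdd_one])
  refine ⟨k, κ, ?_⟩
  unfold Lam
  rw [← hκ, mul_comm χ, mul_inv_cancel_left]

end mf

end Pool.Agent.H19.AB
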