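import Pool.Agent.H51.MT.Brg
import Pool.Agent.H63.MC.CLkC
import Pool.Agent.H19.NF.St

/-!
# [H19 AB] arithmetic of AP (MP_b39724_nt, all classes): cochains on the Galois group

`Γ = Gal(Ω/K)`, `M` an abelian group (`ZMod (p^m)`).
* `Lf2 p Ψ`: the 2-cochain `Ψ` is the pull-back of a normalised cochain of a finite group of exponent `p` by a homomorphism of finite type.
* `LfT L Ψ`: the same for a finite group `R`, `ρ` with inertia of order `p` outside `S0` (`Tme L ρ`).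
* `Rel D Q Ψ`: `Ψ` is zero on the decomposition groups at `S0`.
* `TS L Fr lam Ψ`: the sum of the tori `Ψ(t_v, F_v) - Ψ(F_v, t_v)` (finite sum for `Lf2`), with the weights of the reciprocity law.
-/

set_option autoImplicit false
set_option linter.dupNamespace false

open scoped NumberField
open IsDedekindDomain
open scoped Classical

noncomputable section

namespace Pool.Agent.H19.AB

open H63.MA H38.BB H38.BG H57.PC H57.BRA H89.BRG H48.MF Pool.Agent.H19.NF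

variable {K : Type} [Field K] [NumberField K] {Ω : Type} [Field Ω] [Algebra K Ω] {p : ℕ} {ζ : K}

/-- pull-back of a normalised 2-cochain of a finite group of exponent `p` -/
def Lf2 (p : ℕ) {M : Type} [AddCommGroup M] (Ψ : Gal(Ω/K) → Gal(Ω/K) → M) : Prop :=
  ∃ (R : Type) (_ : Group R) (_ : Finite R) (ρ : Gal(Ω/K) →* R) (ψ : R → R → M),
    (∀ r : R, r ^ p = 1) ∧ H38.ML.FT ρ ∧ (∀ r, ψ 1 r = 0) ∧ (∀ r, ψ r 1 = 0) ∧
      ∀ σ τ, Ψ σ τ = ψ (ρ σ) (ρ τ)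

/-- inertia of order `p` outside `S0` -/
def Tme {D : RD0 K p ζ} (L : LDs D Ω) {R : Type} [Group R] (ρ : Gal(Ω/K) →* R) : Prop :=
  ∀ v, v ∉ D.S0 → ∀ τ ∈ inr L v, ρ τ ^ p = 1

/-- pull-back of a normalised 2-cochain of a finite group by a homomorphism with inertia of order `p` -/
def LfT {D : RD0 K p ζ} (L : LDs D Ω) {M : Type} [AddCommGroup M]
    (Ψ : Gal(Ω/K) → Gal(Ω/K) → M) : Prop :=
  ∃ (R : Type) (_ : Group R) (_ : Finite R) (ρ : Gal(Ω/K) →* R) (ψ : R → R → M),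
    Tme L ρ ∧ H38.ML.FT ρ ∧ (∀ r, ψ 1 r = 0) ∧ (∀ r, ψ r 1 = 0) ∧
      ∀ σ τ, Ψ σ τ = ψ (ρ σ) (ρ τ)

theorem Lf2.lft {D : RD0 K p ζ} (L : LDs D Ω) {M : Type} [AddCommGroup M]
    {Ψ : Gal(Ω/K) → Gal(Ω/K) → M} (h : Lf2 p Ψ) : LfT L Ψ := by
  obtain ⟨R, i1, i2, ρ, ψ, h1, h2, h3, h4, h5⟩ := h
  exact ⟨R, i1, i2, ρ, ψ, fun v _ τ _ => h1 _, h2, h3, h4, h5⟩

/-- zero on the decomposition groups at `S0` -/
def Rel (D : RD0 K p ζ) (Q : DP K Ω) {M : Type} [AddCommGroup M] (Ψ : Gal(Ω/K) → Gal(Ω/K) → M) :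
    Prop :=
  ∀ v ∈ D.S0, ∀ σ ∈ dec (K := K) (Q.P v), ∀ τ ∈ dec (K := K) (Q.P v), Ψ σ τ = 0

/-- the sum of the tori -/
def TS {D : RD0 K p ζ} (L : LDs D Ω) (Fr : FR L) (lam : Pl K → ZMod p) {M : Type} [AddCommGroup M]
    (Ψ : Gal(Ω/K) → Gal(Ω/K) → M) : M :=
  ∑ᶠ v, (lam v).val • br Ψ (L.t v) (Fr.F v)

end Pool.Agent.H19.AB
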