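import Pool.Agent.H19.AB.Lif
import Pool.Agent.H51.CUB.DUD
import Pool.Agent.H51.MT.Lsp

/-!
# [H19 AB DU] duality: the characters unramified outside `S0` separate the classes `q`

`Xu L`: the characters `Γ → F_p` of finite type with `χ(t_v) = 1` outside `S0`. `xi_q`: `χ (F_w) = ∑ κ_i q_i(w)` at the good primes `w`. `q_xi`: every `κ` occurs.
`xu_fam`: a family indexed by `κ`, all of `Xu`. `du`: `q w = q w'` if and only if `χ(F_w) = χ(F_w')` for all `χ ∈ Xu`.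
-/

set_option autoImplicit false
set_option linter.dupNamespace false

open scoped NumberField
open IsDedekindDomain
open scoped Classical

noncomputable section

namespace Pool.Agent.H19.AB

open H63.MA H38.BB H38.BG H57.PC H57.BRA H89.BRG H48.MF Pool.Agent.H19.NF

variable {K : Type} [Field K] [NumberField K] {Ω : Type} [Field Ω] [Algebra K Ω]
  [IsAlgClosure K Ω] {p : ℕ} {ζ : K}

omit [NumberField K] [IsAlgClosure K Ω] in
theorem kk_kc (p : ℕ) (ζ : K) (b : Kˣ) (σ : Gal(Ω/K)) :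
    Multiplicative.toAdd (kc p ζ Ω b σ) = kk p ζ b σ := rfl

/-- the values of the characters of units at Frobenius -/
theorem unit_q (D : RD K p ζ) {u : Kˣ} (hu : TUnit D.S0 u) :
    ∃ κ : Fin D.r → ZMod p, ∀ w, D.Gd w → D.LL w u = ∑ i, κ i * D.q w i := by
  obtain ⟨κ, hκ⟩ := D.rec1 u
  refine ⟨κ, fun w hw => ?_⟩
  rw [hκ w hw, finsum_congr (g := fun _ => (0 : ZMod p)) (fun v => ?_), finsum_zero, add_zero]
  by_cases hS : v ∈ D.S0
  · rw [if_pos hS]
  · rw [if_neg hS, hu v hS, Int.cast_zero, mul_zero, zero_mul]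

theorem xi_unit (hp : p.Prime) (hζ : IsPrimitiveRoot ζ p) {D : RD0 K p ζ} (L : LDs D Ω)
    (ξ : Gal(Ω/K) →* Multiplicative (ZMod p)) (hξ : H38.ML.FT ξ)
    (ht : ∀ v, v ∉ D.S0 → ξ (L.t v) = 1) :
    ∃ u : Kˣ, TUnit D.S0 u ∧ ξ = kc p ζ Ω u := by
  obtain ⟨e, he⟩ := kc_all hp hζ ξ hξ
  have hk : ∀ σ, kk p ζ e σ = Multiplicative.toAdd (ξ σ) := fun σ => by rw [he]; rfl
  have h1 : ∀ v, v ∉ D.S0 → (p : ℤ) ∣ ord v e := by
    intro v hv
    have h2 := kk_t hp hζ L hv e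
    rw [hk, ht v hv, toAdd_one] at h2
    exact (ZMod.intCast_zmod_eq_zero_iff_dvd _ _).1 h2.symm
  obtain ⟨u, y, hu, hue⟩ := unit_of_ord hp D e h1
  refine ⟨u, hu, ?_⟩
  ext σ
  have h4 : kk p ζ e σ = kk p ζ u σ := by
    rw [hue, kk_mul_arg hp hζ, ← zpow_natCast y p, kk_zpow_arg hp hζ, Int.cast_natCast,
      CharP.cast_eq_zero, zero_mul, add_zero]
  rw [he]
  exact h4

theorem xi_q (hp : p.Prime) (hζ : IsPrimitiveRoot ζ p) (D : RD K p ζ) (L : LDs D.toRD0 Ω)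
    (Fr : FR L) (ξ : Gal(Ω/K) →* Multiplicative (ZMod p)) (hξ : H38.ML.FT ξ)
    (ht : ∀ v, v ∉ D.S0 → ξ (L.t v) = 1) :
    ∃ κ : Fin D.r → ZMod p, ∀ w, D.Gd w →
      Multiplicative.toAdd (ξ (Fr.F w)) = ∑ i, κ i * D.q w i := by
  obtain ⟨u, hu, rfl⟩ := xi_unit hp hζ L ξ hξ ht
  obtain ⟨κ, hκ⟩ := unit_q D hu
  refine ⟨κ, fun w hw => ?_⟩
  rw [kk_kc, Fr.kf w hw.1, hκ w hw]

/-- a product of uniformisers with class `0` modulo units and `PS` -/
theorem qs_of_ps (hp : p.Prime) (hp2 : MOne p K) (hζ : IsPrimitiveRoot ζ p) (D : RD0 K p ζ)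
    (Q : DP K Ω) {x : Kˣ} (hx : PS p ζ D.S0 x) : qs D x = 0 :=
  q0 hp hζ D Q x fun v hv σ hσ => ps_triv hp hp2 hζ D Q x hx v hv σ hσ

theorem qs_prod (D : RD0 K p ζ) (T : Finset (Pl K)) (x : Pl K → Kˣ) :
    qs D (∏ v ∈ T, x v) = ∑ v ∈ T, qs D (x v) := by
  induction T using Finset.induction_on with
  | empty =>
    rw [Finset.prod_empty, Finset.sum_empty]
    have h := qs_mul D 1 1
    rw [mul_one] at h
    exact (left_eq_add.1 h)
  | insert a T ha ih => rw [Finset.prod_insert ha, Finset.sum_insert ha, qs_mul, ih]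

theorem q_xi (hp : p.Prime) (hp2 : MOne p K) (hζ : IsPrimitiveRoot ζ p) (D : RD K p ζ)
    (L : LDs D.toRD0 Ω) (Q : DP K Ω) (Fr : FR L) (κ : Fin D.r → ZMod p) :
    ∃ ξ : Gal(Ω/K) →* Multiplicative (ZMod p), H38.ML.FT ξ ∧
      (∀ v, v ∉ D.S0 → ξ (L.t v) = 1) ∧
      ∀ w, D.Gd w → Multiplicative.toAdd (ξ (Fr.F w)) = ∑ i, κ i * D.q w i := by
  have hF : Fact p.Prime := ⟨hp⟩
  suffices h : ∃ u : Kˣ, TUnit D.S0 u ∧ ∀ w, D.Gd w → D.LL w u = ∑ i, κ i * D.q w i by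
    obtain ⟨u, hu, h⟩ := h
    refine ⟨kc p ζ Ω u, kc_ft hp hζ u, fun v hv => ?_, fun w hw => ?_⟩
    · apply Multiplicative.toAdd.injective
      rw [kk_kc, kk_t hp hζ L hv, hu v hv, Int.cast_zero, toAdd_one]
    · rw [kk_kc, Fr.kf w hw.1, h w hw]
  let W : Submodule (ZMod p) (Fin D.r → ZMod p) :=
    { carrier := {κ | ∃ u : Kˣ, TUnit D.S0 u ∧ ∀ w, D.Gd w → D.LL w u = ∑ i, κ i * D.q w i}
      add_mem' := by
        rintro a b ⟨u, hu, h⟩ ⟨u', hu', h'⟩
        refine ⟨u * u', fun v hv => by rw [ord_mul, hu v hv, hu' v hv, add_zero], fun w hw => ?_⟩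
        have e1 : D.LL w (u * u') = D.LL w u + D.LL w u' := by
          have e2 := kk_mul_arg hp hζ u u' (Fr.F w)
          rw [Fr.kf w hw.1, Fr.kf w hw.1, Fr.kf w hw.1] at e2
          exact e2
        rw [e1, h w hw, h' w hw, ← Finset.sum_add_distrib]
        refine Finset.sum_congr rfl fun i _ => ?_
        rw [Pi.add_apply, add_mul]
      zero_mem' := by
        refine ⟨1, fun v _ => ord_one v, fun w hw => ?_⟩
        have e2 := kk_mul_arg hp hζ 1 1 (Fr.F w)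
        rw [mul_one, Fr.kf w hw.1] at e2
        rw [left_eq_add.1 e2]
        simp
      smul_mem' := by
        rintro n a ⟨u, hu, h⟩
        refine ⟨u ^ n.val, fun v hv => by rw [ord_pow, hu v hv, mul_zero], fun w hw => ?_⟩
        have e2 := kk_zpow_arg hp hζ u (n.val : ℤ) (Fr.F w)
        rw [zpow_natCast, Fr.kf w hw.1, Fr.kf w hw.1, Int.cast_natCast, ZMod.natCast_zmod_val]
          at e2
        rw [e2, h w hw, Finset.mul_sum]
        refine Finset.sum_congr rfl fun i _ => ?_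
        rw [Pi.smul_apply, smul_eq_mul, mul_assoc] }
  have hW : W = ⊤ := by
    by_contra hne
    obtain ⟨f, hf0, hf⟩ := Submodule.exists_le_ker_of_lt_top W (lt_top_iff_ne_top.2 hne)
    apply hf0
    -- the functional as a vector
    set c : Fin D.r → ZMod p := fun i => f (Pi.single i 1) with hc
    have hfc : ∀ x : Fin D.r → ZMod p, f x = ∑ i, x i * c i := by
      intro x
      conv_lhs => rw [← Finset.univ_sum_single x]
      rw [map_sum]
      refine Finset.sum_congr rfl fun k _ => ?_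
      have h2 : (Pi.single k (x k) : Fin D.r → ZMod p) = x k • Pi.single k 1 := by
        rw [← Pi.single_smul, smul_eq_mul, mul_one]
      rw [h2, map_smul, smul_eq_mul]
    obtain ⟨T, hT, hTs⟩ := H51.MT.lsp hp hp2 hζ D.toRD0
    obtain ⟨α, hα⟩ := hTs c
    obtain ⟨u, hu, hps⟩ := H51.CUB.dud hp hp2 hζ D T hT α (fun u hu => by
      obtain ⟨k, hk⟩ := unit_q D hu
      have h1 : k ∈ W := ⟨u, hu, hk⟩
      have h2 : f k = 0 := LinearMap.mem_ker.1 (hf h1)
      rw [hfc] at h2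
      rw [← h2]
      have h3 : ∀ i, c i = ∑ v ∈ T, α v * D.q v i := by
        intro i
        rw [hα, Finset.sum_apply]
        rfl
      simp_rw [h3, Finset.mul_sum]
      rw [Finset.sum_comm]
      refine Finset.sum_congr rfl fun v hv => ?_
      rw [hk v (hT v hv), Finset.mul_sum]
      refine Finset.sum_congr rfl fun i _ => ?_
      ring)
    have h4 := qs_of_ps (Ω := Ω) hp hp2 hζ D.toRD0 Q hps
    rw [qs_mul, qs_unit D.toRD0 (x := u) (fun v hv => by rw [hu v hv, Int.cast_zero]), zero_add,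
      qs_prod] at h4
    have h5 : c = 0 := by
      rw [← h4, hα]
      refine Finset.sum_congr rfl fun v hv => ?_
      rw [qs_pow, ZMod.natCast_zmod_val, qs_single D.toRD0 (w := v) (fun w hw => ?_) (hT v hv).1]
      by_cases h : w = v
      · rw [if_pos h, h, D.pi_self v (hT v hv).1, Int.cast_one]
      · rw [if_neg h, D.pi_ne v w (hT v hv).1 hw h, Int.cast_zero]
    apply LinearMap.ext
    intro x
    rw [hfc, h5]
    simp
  have h : κ ∈ W := by rw [hW]; trivial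
  exact h

/-- the family of the characters unramified outside `S0` -/
theorem xu_fam (hp : p.Prime) (hp2 : MOne p K) (hζ : IsPrimitiveRoot ζ p) (D : RD K p ζ)
    (L : LDs D.toRD0 Ω) (Q : DP K Ω) (Fr : FR L) :
    ∃ Xi : (Fin D.r → ZMod p) → (Gal(Ω/K) →* Multiplicative (ZMod p)),
      (∀ κ, H38.ML.FT (Xi κ)) ∧ (∀ κ v, v ∉ D.S0 → Xi κ (L.t v) = 1) ∧
      (∀ κ w, D.Gd w → Multiplicative.toAdd (Xi κ (Fr.F w)) = ∑ i, κ i * D.q w i) ∧
      ∀ ξ : Gal(Ω/K) →* Multiplicative (ZMod p), H38.ML.FT ξ →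
        (∀ v, v ∉ D.S0 → ξ (L.t v) = 1) → ∃! κ, ξ = Xi κ := by
  have hF : Fact p.Prime := ⟨hp⟩
  choose Xi h1 h2 h3 using fun κ => q_xi hp hp2 hζ D L Q Fr κ
  refine ⟨Xi, h1, h2, h3, fun ξ hξ ht => ?_⟩
  obtain ⟨κ, hκ⟩ := xi_q hp hζ D L Fr ξ hξ ht
  refine ⟨κ, ?_, fun κ' hκ' => ?_⟩
  · obtain ⟨u, hu, hue⟩ := xi_unit hp hζ L ξ hξ ht
    obtain ⟨u', hu', hue'⟩ := xi_unit hp hζ L (Xi κ) (h1 κ) (h2 κ)
    have h4 : ∀ w, D.Gd w → kk p ζ (u * u'⁻¹) (Fr.F w) = 0 := by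
      intro w hw
      have h5 : kk p ζ u (Fr.F w) = ∑ i, κ i * D.q w i := by rw [← hκ w hw, hue, kk_kc]
      have h6 : kk p ζ u' (Fr.F w) = ∑ i, κ i * D.q w i := by
        rw [← h3 κ w hw, ← kk_kc, hue']
      rw [← zpow_neg_one u', kk_mul_arg hp hζ, kk_zpow_arg hp hζ, h5, h6, Int.cast_neg,
        Int.cast_one, neg_one_mul, add_neg_cancel]
    have h7 : IsPow p (u * u'⁻¹) := by
      by_contra hne
      obtain ⟨v, hv, -, -, hv2⟩ := D.non _ hne ∅
      apply hv2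
      rw [← Fr.kf v hv.1, h4 v hv]
    obtain ⟨z, hz⟩ := h7
    rw [hue, hue']
    ext σ
    show kk p ζ u σ = kk p ζ u' σ
    have h8 : u = z ^ (p : ℤ) * u' := by
      rw [zpow_natCast, hz, inv_mul_cancel_right]
    rw [h8, kk_mul_arg hp hζ, kk_zpow_arg hp hζ, Int.cast_natCast, CharP.cast_eq_zero, zero_mul,
      zero_add]
  · obtain ⟨T, hT, hTs⟩ := H51.MT.lsp hp hp2 hζ D.toRD0
    have h4 : ∀ w, D.Gd w → ∑ i, κ' i * D.q w i = ∑ i, κ i * D.q w i := by
      intro w hw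
      rw [← h3 κ' w hw, ← hκ w hw, ← hκ']
    funext j
    obtain ⟨α, hα⟩ := hTs (Pi.single j 1)
    have h5 : ∀ k : Fin D.r → ZMod p, k j = ∑ v ∈ T, α v * ∑ i, k i * D.q v i := by
      intro k
      have h6 : k j = ∑ i, k i * (Pi.single j 1 : Fin D.r → ZMod p) i := by
        rw [Finset.sum_eq_single j]
        · rw [Pi.single_eq_same, mul_one]
        · intro i _ hi
          rw [Pi.single_eq_of_ne hi, mul_zero]
        · intro h
          exact absurd (Finset.mem_univ j) h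
      rw [h6, hα]
      simp_rw [Finset.sum_apply, Pi.smul_apply, smul_eq_mul, Finset.mul_sum]
      rw [Finset.sum_comm]
      refine Finset.sum_congr rfl fun v _ => Finset.sum_congr rfl fun i _ => ?_
      ring
    rw [h5 κ', h5 κ]
    refine Finset.sum_congr rfl fun v hv => ?_
    rw [h4 v (hT v hv)]

/-- duality -/
theorem du (hp : p.Prime) (hp2 : MOne p K) (hζ : IsPrimitiveRoot ζ p) (D : RD K p ζ)
    (L : LDs D.toRD0 Ω) (Q : DP K Ω) (Fr : FR L) {w w' : Pl K} (hw : D.Gd w) (hw' : D.Gd w') :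
    D.q w = D.q w' ↔ ∀ ξ : Gal(Ω/K) →* Multiplicative (ZMod p), H38.ML.FT ξ →
      (∀ v, v ∉ D.S0 → ξ (L.t v) = 1) → ξ (Fr.F w) = ξ (Fr.F w') := by
  constructor
  · intro h ξ hξ ht
    obtain ⟨κ, hκ⟩ := xi_q hp hζ D L Fr ξ hξ ht
    apply Multiplicative.toAdd.injective
    rw [hκ w hw, hκ w' hw', h]
  · intro h
    funext j
    obtain ⟨ξ, h1, h2, h3⟩ := q_xi hp hp2 hζ D L Q Fr (Pi.single j 1)
    have h4 := congrArg Multiplicative.toAdd (h ξ h1 h2)
    rw [h3 w hw, h3 w' hw'] at h4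
    have h5 : ∀ x : Fin D.r → ZMod p, ∑ i, (Pi.single j 1 : Fin D.r → ZMod p) i * x i = x j := by
      intro x
      rw [Finset.sum_eq_single j]
      · rw [Pi.single_eq_same, one_mul]
      · intro i _ hi
        rw [Pi.single_eq_of_ne hi, zero_mul]
      · intro h
        exact absurd (Finset.mem_univ j) h
    rw [h5, h5] at h4
    exact h4

end Pool.Agent.H19.AB
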