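import Pool.Agent.H19.AB.Defs
import Pool.Agent.H63.MA.ALem
import Pool.Agent.H63.MC.CHa

/-!
# [H19 AB QZ] Kummer characters trivial at S0

`near_root`: if `kk e` is trivial on the decomposition groups at the primes of `S` then `e` is a `p`-th power times an element close to `1` at `S` (with
arbitrary precision). Consequences for `S = S0`: `ps_of` (`PS e`), `q0`: `∑ ord v e • q v = 0`, and `pow_of`: if moreover `kk e t_v = 0` outside `S0` then `kk e = 0`.
-/

set_option autoImplicit false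
set_option linter.dupNamespace false

open scoped NumberField
open IsDedekindDomain
open scoped Classical

noncomputable section

namespace Pool.Agent.H19.AB

open H63.MA H38.BB H38.BG H57.PC H57.BRA H89.BRG H48.MF Pool.Agent.H19.NF

section cn

variable {K : Type} [Field K] [NumberField K] {Ω : Type} [Field Ω] [Algebra K Ω]
  [IsAlgClosure K Ω] {p : ℕ} {ζ : K}

/-- `u` is `1` modulo more than `d` at `P` -/
def Cn (d : ℕ) (P : Ideal (𝓞 Ω)) (u : Ω) : Prop :=
  ∃ a s : 𝓞 Ω, a ∈ P ∧ s ∉ P ∧ (s : Ω) * (u - 1) = (d : Ω) * (a : Ω)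

omit [NumberField K] [Algebra K Ω] [IsAlgClosure K Ω] [Field K] in
theorem cn_mul {d : ℕ} {P : Ideal (𝓞 Ω)} (hP : P.IsPrime) {u u' : Ω} (h : Cn d P u) (h' : Cn d P u') :
    Cn d P (u * u') := by
  obtain ⟨a, s, ha, hs, h⟩ := h
  obtain ⟨a', s', ha', hs', h'⟩ := h'
  refine ⟨a * s' + a' * s + (d : 𝓞 Ω) * a * a', s * s', ?_, ?_, ?_⟩
  · exact P.add_mem (P.add_mem (P.mul_mem_right _ ha) (P.mul_mem_right _ ha'))
      (P.mul_mem_left _ ha')
  · intro hm
    rcases hP.mem_or_mem hm with h1 | h1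
    · exact hs h1
    · exact hs' h1
  · push_cast
    linear_combination ((s' : Ω) * (u' - 1) + s') * h + ((d : Ω) * a + s) * h'

omit [NumberField K] [Algebra K Ω] [IsAlgClosure K Ω] [Field K] in
theorem cn_inv {d : ℕ} {P : Ideal (𝓞 Ω)} {u : Ω} (h : Cn d P u) : Cn d P u⁻¹ := by
  obtain ⟨a, s, ha, hs, h⟩ := h
  have h1 : s + (d : 𝓞 Ω) * a ∉ P := clkA_pm _ ha hs
  have h2 : ((s + (d : 𝓞 Ω) * a : 𝓞 Ω) : Ω) = s * u := by
    push_cast
    linear_combination - h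
  have hu : u ≠ 0 := by
    rintro rfl
    rw [mul_zero] at h2
    have h3 : s + (d : 𝓞 Ω) * a = 0 := by
      apply NumberField.RingOfIntegers.ext
      rw [h2]
      exact (map_zero (algebraMap (𝓞 Ω) Ω)).symm
    exact h1 (h3 ▸ P.zero_mem)
  refine ⟨-a, s + (d : 𝓞 Ω) * a, P.neg_mem ha, h1, ?_⟩
  rw [h2, mul_sub, mul_assoc, mul_inv_cancel₀ hu]
  push_cast
  linear_combination - h

omit [NumberField K] [Algebra K Ω] [IsAlgClosure K Ω] [Field K] in
theorem cn_one {d : ℕ} {P : Ideal (𝓞 Ω)} (hP : P.IsPrime) : Cn d P (1 : Ω) :=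
  ⟨0, 1, P.zero_mem, fun h => hP.ne_top (P.eq_top_iff_one.2 h), by push_cast; ring⟩

omit [NumberField K] [Algebra K Ω] [IsAlgClosure K Ω] [Field K] in
theorem cn_pow {d : ℕ} {P : Ideal (𝓞 Ω)} (hP : P.IsPrime) {u : Ω} (h : Cn d P u) (n : ℕ) :
    Cn d P (u ^ n) := by
  induction n with
  | zero =>
    rw [pow_zero]
    exact cn_one hP
  | succ n ih =>
    rw [pow_succ]
    exact cn_mul hP ih h

omit [IsAlgClosure K Ω] in
theorem val_of_cn {d : ℕ} (hd : d ≠ 0) {v : Pl K} {P : Ideal (𝓞 Ω)} (hP : P.IsPrime)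
    (hv : P.under (𝓞 K) = v.asIdeal) {x : Kˣ} (h : Cn d P (algebraMap K Ω (x : K))) :
    v.valuation K ((x : K) - 1) < v.valuation K (d : K) := by
  obtain ⟨a, s, ha, hs, h⟩ := h
  have hd0 : (d : K) ≠ 0 := by exact_mod_cast hd
  have hdΩ : (d : Ω) ≠ 0 := by
    have h1 : algebraMap K Ω (d : K) ≠ 0 := by
      rw [Ne, map_eq_zero]
      exact hd0
    rwa [map_natCast] at h1
  have key : v.valuation K (((x : K) - 1) / (d : K)) < 1 := by
    by_contra hc
    rw [not_lt] at hc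
    have ht0 : ((x : K) - 1) / (d : K) ≠ 0 := by
      intro h0
      rw [h0, map_zero] at hc
      exact absurd hc (by simp)
    have hi : v.valuation K ((((x : K) - 1) / (d : K))⁻¹) ≤ 1 := by
      rw [map_inv₀]
      exact inv_le_one_of_one_le₀ hc
    obtain ⟨n, c, hnc⟩ := v.exists_primeCompl_mul_eq_of_integer (K := K) _ hi
    have e1 : algebraMap (𝓞 K) K (c : 𝓞 K) =
        algebraMap (𝓞 K) K n * (((x : K) - 1) / (d : K)) := by
      rw [← hnc, mul_right_comm, inv_mul_cancel₀ ht0, one_mul]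
    have e2 : (s : Ω) * algebraMap K Ω (((x : K) - 1) / (d : K)) = (a : Ω) := by
      rw [map_div₀, map_sub, map_one, map_natCast, mul_div_assoc', div_eq_iff hdΩ, h]
      ring
    have e3 : s * algebraMap (𝓞 K) (𝓞 Ω) (c : 𝓞 K) = algebraMap (𝓞 K) (𝓞 Ω) n * a := by
      apply NumberField.RingOfIntegers.ext
      change (s : Ω) * algebraMap K Ω (algebraMap (𝓞 K) K (c : 𝓞 K)) =
        algebraMap K Ω (algebraMap (𝓞 K) K n) * (a : Ω)
      rw [e1, map_mul, ← e2]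
      ring
    have h5 : s * algebraMap (𝓞 K) (𝓞 Ω) (c : 𝓞 K) ∈ P := by
      rw [e3]
      exact P.mul_mem_left _ ha
    rcases hP.mem_or_mem h5 with h6 | h6
    · exact hs h6
    · have h7 : (c : 𝓞 K) ∈ P.under (𝓞 K) := h6
      rw [hv] at h7
      exact c.2 h7
  rw [map_div₀] at key
  have hd1 : 0 < v.valuation K (d : K) := zero_lt_iff.2 ((Valuation.ne_zero_iff _).2 hd0)
  exact (div_lt_one₀ hd1).1 key

theorem densN {d : ℕ} (hd : d ≠ 0) (v : Pl K) (P : Ideal (𝓞 Ω)) (hP : P.IsPrime)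
    (hv : P.under (𝓞 K) = v.asIdeal) (c : Ω) (hc : c ≠ 0)
    (hfix : ∀ σ ∈ dec (K := K) P, σ c = c) :
    ∃ b : Kˣ, Cn d P (algebraMap K Ω (b : K) * c⁻¹) := by
  have hgal : IsGalois K Ω := IsAlgClosure.isGalois K Ω
  have hchar : CharZero Ω := charZero_of_injective_algebraMap (algebraMap K Ω).injective
  -- an integral multiple
  obtain ⟨n, hn0, hn⟩ : ∃ n : ℤ, n ≠ 0 ∧ IsIntegral ℤ (n • c) := by
    have h1 : IsAlgebraic ℤ c := by
      have : Algebra.IsAlgebraic ℚ Ω := Algebra.IsAlgebraic.trans ℚ K Ω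
      have h2 : IsAlgebraic ℚ c := Algebra.IsAlgebraic.isAlgebraic c
      exact (IsFractionRing.isAlgebraic_iff ℤ ℚ Ω).2 h2
    exact h1.exists_integral_multiple
  obtain ⟨M, hMf, hMg, hcM⟩ := clkb_field (K := K) c
  have hMn : NumberField M := NumberField.of_module_finite K M
  let cM : M := ⟨c, hcM⟩
  have hint : IsIntegral ℤ (n • cM) := by
    have h3 : IsIntegral ℤ (algebraMap M Ω (n • cM)) := by
      rw [map_zsmul]
      exact hn
    exact (isIntegral_algebraMap_iff (algebraMap M Ω).injective).1 h3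
  let c1 : 𝓞 M := ⟨n • cM, hint⟩
  have hc1 : ((c1 : M) : Ω) = (n : Ω) * c := by
    show ((n • cM : M) : Ω) = _
    rw [zsmul_eq_mul]
    push_cast
    rfl
  have hnΩ : (n : Ω) ≠ 0 := by exact_mod_cast hn0
  have hc10 : c1 ≠ 0 := by
    intro h
    have h1 : ((c1 : M) : Ω) = 0 := by rw [h]; rfl
    rw [hc1] at h1
    exact (mul_ne_zero hnΩ hc) h1
  -- the prime of `M`
  let Q : Ideal (𝓞 M) := P.under (𝓞 M)
  have hQ : Q.IsPrime := inferInstance
  have hQ0 : Q ≠ ⊥ := by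
    intro h
    apply v.ne_bot
    rw [← hv, eq_bot_iff]
    intro x hx
    have h1 : algebraMap (𝓞 K) (𝓞 M) x ∈ Q := hx
    rw [h, Ideal.mem_bot] at h1
    have h2 : Function.Injective (algebraMap (𝓞 K) (𝓞 M)) :=
      FaithfulSMul.algebraMap_injective _ _
    exact h2 (by rw [h1, map_zero])
  have hQm : Q.IsMaximal := hQ.isMaximal hQ0
  have hpm : ((d : ℕ) : 𝓞 M) * c1 ≠ 0 := by
    apply mul_ne_zero _ hc10
    exact_mod_cast hd
  obtain ⟨N, hN⟩ := clkb_loc Q hQ hQ0 _ hpm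
  let H : Subgroup Gal(M/K) := dec (K := K) (Ω := M) Q
  have hH : ∀ g, g ∈ H ↔ ∀ x : 𝓞 M, g • x ∈ Q ↔ x ∈ Q := fun g => Iff.rfl
  have hcH : ∀ g ∈ H, g • c1 = c1 := by
    intro g hg
    apply NumberField.RingOfIntegers.ext
    show g (n • cM) = n • cM
    rw [map_zsmul]
    congr 1
    exact clkb_fix P hP M g hg cM hfix
  obtain ⟨b1, hb1⟩ := clkb_approx (A := 𝓞 K) Q hQm H hH c1 hcH N
  obtain ⟨a, s, ha, hs, has⟩ := hN _ hb1
  -- transport to `Ω`
  have hmapE : ∀ x : 𝓞 M, ((algebraMap (𝓞 M) (𝓞 Ω) x : 𝓞 Ω) : Ω) = ((x : M) : Ω) := fun x => rfl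
  have haP : algebraMap (𝓞 M) (𝓞 Ω) a ∈ P := ha
  have hsP : algebraMap (𝓞 M) (𝓞 Ω) s ∉ P := hs
  have hasΩ : ((s : M) : Ω) * (algebraMap K Ω (b1 : K) - (n : Ω) * c) =
      ((d : ℕ) : Ω) * ((n : Ω) * c) * ((a : M) : Ω) := by
    have h1 := congrArg (fun z : 𝓞 M => ((z : M) : Ω)) has
    rw [← hc1]
    have h2 : algebraMap K Ω (b1 : K) = (((algebraMap (𝓞 K) (𝓞 M) b1 : 𝓞 M) : M) : Ω) := rfl
    rw [h2]
    push_cast at h1
    exact h1
  have hb10 : (b1 : K) ≠ 0 := by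
    intro h
    rw [h, map_zero, zero_sub] at hasΩ
    have h1 : ((s : M) : Ω) = -(((d : ℕ) : Ω) * ((a : M) : Ω)) := by
      have h2 : (n : Ω) * c ≠ 0 := mul_ne_zero hnΩ hc
      apply mul_right_cancel₀ h2
      linear_combination -hasΩ
    apply hs
    have h3 : s = -(((d : ℕ) : 𝓞 M) * a) := by
      apply NumberField.RingOfIntegers.ext
      apply Subtype.ext
      rw [h1]
      push_cast
      rfl
    rw [h3]
    exact Q.neg_mem (Q.mul_mem_left _ ha)
  have hnK : (n : K) ≠ 0 := by exact_mod_cast hn0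
  refine ⟨Units.mk0 ((b1 : K) / (n : K)) (div_ne_zero hb10 hnK),
    algebraMap (𝓞 M) (𝓞 Ω) a, algebraMap (𝓞 M) (𝓞 Ω) s, haP, hsP, ?_⟩
  rw [hmapE, hmapE, Units.val_mk0, map_div₀, map_intCast]
  field_simp
  linear_combination hasΩ

end cn

section near

variable {K : Type} [Field K] [NumberField K]

theorem nr_mul {v : Pl K} {δ : WithZero (Multiplicative ℤ)} (hδ : δ ≤ 1) {x y : Kˣ}
    (hx : v.valuation K ((x : K) - 1) < δ) (hy : v.valuation K ((y : K) - 1) < δ) :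
    v.valuation K (((x * y : Kˣ) : K) - 1) < δ := by
  have hy1 : v.valuation K (y : K) = 1 := symA_one1 (lt_of_lt_of_le hy hδ)
  have h1 : ((x * y : Kˣ) : K) - 1 = ((x : K) - 1) * y + ((y : K) - 1) := by
    rw [Units.val_mul]
    ring
  rw [h1]
  refine lt_of_le_of_lt (Valuation.map_add _ _ _) (max_lt ?_ hy)
  rw [map_mul, hy1, mul_one]
  exact hx

theorem nr_inv {v : Pl K} {δ : WithZero (Multiplicative ℤ)} (hδ : δ ≤ 1) {x : Kˣ}
    (hx : v.valuation K ((x : K) - 1) < δ) : v.valuation K (((x⁻¹ : Kˣ) : K) - 1) < δ := by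
  have hx1 : v.valuation K (x : K) = 1 := symA_one1 (lt_of_lt_of_le hx hδ)
  have h1 : ((x⁻¹ : Kˣ) : K) - 1 = -(((x : K) - 1) * (x : K)⁻¹) := by
    rw [Units.val_inv_eq_inv_val, sub_mul, one_mul, mul_inv_cancel₀ x.ne_zero]
    ring
  rw [h1, Valuation.map_neg, map_mul, map_inv₀, hx1, inv_one, mul_one]
  exact hx

theorem nr_pow {v : Pl K} {δ : WithZero (Multiplicative ℤ)} (hδ : δ ≤ 1) (hδ0 : 0 < δ) {x : Kˣ}
    (hx : v.valuation K ((x : K) - 1) < δ) (n : ℕ) :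
    v.valuation K (((x ^ n : Kˣ) : K) - 1) < δ := by
  induction n with
  | zero => simpa using hδ0
  | succ n ih =>
    rw [pow_succ]
    exact nr_mul hδ ih hx

end near

variable {K : Type} [Field K] [NumberField K] {Ω : Type} [Field Ω] [Algebra K Ω]
  [IsAlgClosure K Ω] {p : ℕ} {ζ : K}

theorem near_root (hp : p.Prime) (hζ : IsPrimitiveRoot ζ p) (S : Finset (Pl K)) (Q : DP K Ω)
    (e : Kˣ) (h : ∀ v ∈ S, ∀ σ ∈ dec (K := K) (Q.P v), kk p ζ e σ = 0) {d : ℕ} (hd : d ≠ 0) :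
    ∃ y : Kˣ, ∀ v ∈ S, v.valuation K (((e * (y ^ p)⁻¹ : Kˣ) : K) - 1) < v.valuation K (d : K) := by
  have hd0 : (d : K) ≠ 0 := by exact_mod_cast hd
  obtain ⟨B, hB⟩ := gkum_root (K := K) (Ω := Ω) hp e
  have hB0 : B ≠ 0 := by
    intro h0
    rw [h0, zero_pow hp.ne_zero] at hB
    exact e.ne_zero ((map_eq_zero (algebraMap K Ω)).1 hB.symm)
  have h1 : ∀ v, ∃ b : Kˣ, v ∈ S →
      v.valuation K (((e * (b ^ p)⁻¹ : Kˣ) : K) - 1) < v.valuation K (d : K) := by
    intro v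
    by_cases hv : v ∈ S
    · obtain ⟨b, hb⟩ := densN (K := K) hd v (Q.P v) (Q.prime v) (Q.under v) B hB0 (fun σ hσ => by
        have h2 := kk_root hp hζ e B hB σ
        rw [h v hv σ hσ] at h2
        simpa using h2)
      refine ⟨b, fun _ => ?_⟩
      have h3 := cn_inv (cn_pow (Q.prime v) hb p)
      have h4 : ((algebraMap K Ω (b : K) * B⁻¹) ^ p)⁻¹ = algebraMap K Ω ((e * (b ^ p)⁻¹ : Kˣ) : K) := by
        rw [mul_pow, inv_pow, hB, mul_inv_rev, inv_inv, Units.val_mul, map_mul,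
          Units.val_inv_eq_inv_val, map_inv₀, Units.val_pow_eq_pow_val, map_pow]
      rw [h4] at h3
      exact val_of_cn hd (Q.prime v) (Q.under v) h3
    · exact ⟨1, fun h => absurd h hv⟩
  choose b hb using h1
  obtain ⟨y, hy⟩ := weak_approx S b (fun v => v.valuation K (d : K)) (fun v _ => by
    rw [Valuation.ne_zero_iff]
    exact hd0)
  refine ⟨y, fun v hv => ?_⟩
  have hδ : v.valuation K (d : K) ≤ 1 := by
    have h2 := v.valuation_le_one (K := K) (d : 𝓞 K)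
    simpa using h2
  have hδ0 : 0 < v.valuation K (d : K) := zero_lt_iff.2 ((Valuation.ne_zero_iff _).2 hd0)
  have h5 := nr_mul hδ (hb v hv) (nr_inv hδ (nr_pow hδ hδ0 (hy v hv) p))
  have h6 : e * (b v ^ p)⁻¹ * ((y * (b v)⁻¹) ^ p)⁻¹ = e * (y ^ p)⁻¹ := by
    rw [mul_pow, inv_pow, mul_inv_rev, inv_inv, mul_assoc, inv_mul_cancel_left]
  rw [h6] at h5
  exact h5

/-- integral multiples by elements close to `1` -/
theorem near_int {M0 : Ideal (𝓞 K)} (hM : M0 ≠ ⊥) (t : K)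
    (ht : ∀ v : Pl K, v.asIdeal ∣ M0 → v.valuation K t ≤ 1) :
    ∃ h y : 𝓞 K, h - 1 ∈ M0 ∧ algebraMap (𝓞 K) K h * t = algebraMap (𝓞 K) K y := by
  -- the ideal of the denominators
  let N : Ideal (𝓞 K) :=
    { carrier := {h | ∃ y : 𝓞 K, algebraMap (𝓞 K) K h * t = algebraMap (𝓞 K) K y}
      add_mem' := by
        rintro a b ⟨y, hy⟩ ⟨y', hy'⟩
        exact ⟨y + y', by rw [map_add, add_mul, hy, hy', map_add]⟩
      zero_mem' := ⟨0, by rw [map_zero, zero_mul]⟩
      smul_mem' := by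
        rintro c a ⟨y, hy⟩
        exact ⟨c * y, by rw [smul_eq_mul, map_mul, mul_assoc, hy, map_mul]⟩ }
  have hco : IsCoprime N M0 := by
    rw [Ideal.isCoprime_iff_sup_eq]
    by_contra hne
    obtain ⟨m, hm, hle⟩ := Ideal.exists_le_maximal _ hne
    have hmb : m ≠ ⊥ := by
      rintro rfl
      exact hM (le_bot_iff.1 (le_sup_right.trans hle))
    let v : Pl K := ⟨m, hm.isPrime, hmb⟩
    have hv : v.asIdeal ∣ M0 := Ideal.dvd_iff_le.2 (le_sup_right.trans hle)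
    obtain ⟨n, c, hnc⟩ := v.exists_primeCompl_mul_eq_of_integer (K := K) _ (ht v hv)
    have hc : (c : 𝓞 K) ∈ N := ⟨n, by rw [mul_comm, hnc]⟩
    exact c.2 (hle (le_sup_left (a := N) hc))
  obtain ⟨h, hh, j, hj, hhj⟩ := Ideal.isCoprime_iff_exists.1 hco
  obtain ⟨y, hy⟩ := hh
  refine ⟨h, y, ?_, hy⟩
  have h1 : h - 1 = -j := by rw [← hhj]; ring
  rw [h1]
  exact M0.neg_mem hj

/-- the class of an element -/
def qs (D : RD0 K p ζ) (x : Kˣ) (i : Fin D.r) : ZMod p :=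
  ∑ᶠ v, (ord v x : ZMod p) * D.q v i

theorem qs_sup (D : RD0 K p ζ) (x : Kˣ) (i : Fin D.r) :
    (Function.support fun v => (ord v x : ZMod p) * D.q v i).Finite :=
  (finite_ord x).subset fun v hv h => hv (by
    show (ord v x : ZMod p) * D.q v i = 0
    have h' : ord v x = 0 := h
    rw [h', Int.cast_zero, zero_mul])

theorem qs_mul (D : RD0 K p ζ) (x y : Kˣ) : qs D (x * y) = qs D x + qs D y := by
  funext i
  rw [Pi.add_apply]
  unfold qs
  rw [← finsum_add_distrib (qs_sup D x i) (qs_sup D y i)]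
  refine finsum_congr fun v => ?_
  rw [ord_mul, Int.cast_add, add_mul]

theorem qs_inv (D : RD0 K p ζ) (x : Kˣ) : qs D x⁻¹ = -qs D x := by
  funext i
  rw [Pi.neg_apply]
  unfold qs
  rw [← finsum_neg_distrib]
  refine finsum_congr fun v => ?_
  rw [ord_inv, Int.cast_neg, neg_mul]

theorem qs_pow (D : RD0 K p ζ) (x : Kˣ) (n : ℕ) : qs D (x ^ n) = (n : ZMod p) • qs D x := by
  funext i
  rw [Pi.smul_apply, smul_eq_mul]
  unfold qs
  rw [mul_finsum' _ _ (qs_sup D x i)]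
  refine finsum_congr fun v => ?_
  rw [ord_pow, Int.cast_mul, Int.cast_natCast, mul_assoc]

theorem qs_pp (D : RD0 K p ζ) (x : Kˣ) : qs D (x ^ p) = 0 := by
  rw [qs_pow, CharP.cast_eq_zero, zero_smul]

theorem qs_int (D : RD0 K p ζ) {x : Kˣ} {a : 𝓞 K} (hxa : (x : K) = algebraMap (𝓞 K) K a)
    (haM : a - 1 ∈ D.M0) : qs D x = 0 := by
  funext i
  unfold qs
  rw [finsum_eq_sum_of_support_subset (s := (finite_ord x).toFinset) _ ?_, alem_q D hxa haM i]
  · rfl
  · intro v hv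
    rw [Finset.mem_coe, Set.Finite.mem_toFinset]
    intro h
    apply hv
    show (ord v x : ZMod p) * D.q v i = 0
    have h' : ord v x = 0 := h
    rw [h', Int.cast_zero, zero_mul]

/-- elements close to `1` have class `0` -/
theorem qs_near (D : RD0 K p ζ) (hM1 : D.M0 ≠ ⊤) {d : ℕ} (hd : d ≠ 0) (hdM : (d : 𝓞 K) ∈ D.M0) {x : Kˣ}
    (hx : ∀ v ∈ D.S0, v.valuation K ((x : K) - 1) < v.valuation K (d : K)) : qs D x = 0 := by
  have hd0 : (d : K) ≠ 0 := by exact_mod_cast hd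
  obtain ⟨h, y, hh, hy⟩ := near_int D.M0_ne (((x : K) - 1) / (d : K)) (fun v hv => by
    rw [map_div₀]
    have h1 : 0 < v.valuation K (d : K) := zero_lt_iff.2 ((Valuation.ne_zero_iff _).2 hd0)
    exact (div_le_one₀ h1).2 (hx v ((D.M0_dvd v).1 hv)).le)
  have h0 : h ≠ 0 := by
    rintro rfl
    rw [zero_sub] at hh
    exact hM1 ((Ideal.eq_top_iff_one _).2 (by simpa using D.M0.neg_mem hh))
  have h0K : algebraMap (𝓞 K) K h ≠ 0 := by
    rw [Ne, map_eq_zero_iff _ (FaithfulSMul.algebraMap_injective (𝓞 K) K)]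
    exact h0
  have hg : algebraMap (𝓞 K) K h * (x : K) = algebraMap (𝓞 K) K (h + (d : 𝓞 K) * y) := by
    rw [map_add, map_mul, map_natCast, ← hy]
    field_simp
    ring
  have e1 := qs_int D (x := Units.mk0 (algebraMap (𝓞 K) K h) h0K) (a := h) rfl hh
  have e2 := qs_int D (x := Units.mk0 (algebraMap (𝓞 K) K h) h0K * x) (a := h + (d : 𝓞 K) * y)
    (by rw [Units.val_mul, Units.val_mk0, hg]) (by
      have h3 : h + (d : 𝓞 K) * y - 1 = (h - 1) + y * (d : 𝓞 K) := by ring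
      rw [h3]
      exact D.M0.add_mem hh (D.M0.mul_mem_left _ hdM))
  rw [qs_mul, e1, zero_add] at e2
  exact e2

/-- the modulus is not the unit ideal -/
theorem M0_top (hp : p.Prime) (D : RD0 K p ζ) : D.M0 ≠ ⊤ := by
  intro h
  -- a prime above `p`
  have hu : ¬ IsUnit ((p : ℕ) : 𝓞 K) := by
    intro hu
    have h1 := hu.map (algebraMap (𝓞 K) K)
    have h2 : Ideal.absNorm (Ideal.span {((p : ℕ) : 𝓞 K)}) = 1 := by
      rw [Ideal.span_singleton_eq_top.2 hu, Ideal.absNorm_top]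
    rw [Ideal.absNorm_span_natCast] at h2
    have h3 : 0 < Module.finrank ℤ (𝓞 K) := Module.finrank_pos
    exact hp.one_lt.ne' (Nat.pow_eq_one.1 h2 |>.resolve_right h3.ne')
  obtain ⟨m, hm, hle⟩ := Ideal.exists_le_maximal (Ideal.span {((p : ℕ) : 𝓞 K)}) (by
    rwa [Ne, Ideal.span_singleton_eq_top])
  have hpm : ((p : ℕ) : 𝓞 K) ∈ m := hle (Ideal.mem_span_singleton_self _)
  have hmb : m ≠ ⊥ := by
    rintro rfl
    rw [Ideal.mem_bot] at hpm
    exact hp.ne_zero (by exact_mod_cast hpm)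
  let v : Pl K := ⟨m, hm.isPrime, hmb⟩
  have h1 := (D.M0_dvd v).2 (D.above v hpm)
  rw [h, Ideal.dvd_iff_le] at h1
  exact v.isPrime.ne_top (top_le_iff.1 h1)

/-- a Kummer character trivial at `S0` belongs to an element of class `0` -/
theorem q0 (hp : p.Prime) (hζ : IsPrimitiveRoot ζ p) (D : RD0 K p ζ) (Q : DP K Ω) (e : Kˣ)
    (h : ∀ v ∈ D.S0, ∀ σ ∈ dec (K := K) (Q.P v), kk p ζ e σ = 0) : qs D e = 0 := by
  have hN : Ideal.absNorm D.M0 ≠ 0 := by
    rw [Ne, Ideal.absNorm_eq_zero_iff]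
    exact D.M0_ne
  obtain ⟨y, hy⟩ := near_root hp hζ D.S0 Q e h hN
  have h1 := qs_near D (M0_top hp D) hN (Ideal.absNorm_mem D.M0) hy
  rw [qs_mul, qs_inv, qs_pp, neg_zero, add_zero] at h1
  exact h1

/-- a Kummer character trivial at `S0` belongs to an element which is a `p`-th power at `S0` -/
theorem ps_of (hp : p.Prime) (hζ : IsPrimitiveRoot ζ p) (D : RD0 K p ζ) (Q : DP K Ω) (e : Kˣ)
    (h : ∀ v ∈ D.S0, ∀ σ ∈ dec (K := K) (Q.P v), kk p ζ e σ = 0) : PS p ζ D.S0 e := by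
  have hd : p ^ 2 ≠ 0 := pow_ne_zero 2 hp.ne_zero
  obtain ⟨y, hy⟩ := near_root hp hζ D.S0 Q e h hd
  refine ⟨fun v hv => ⟨y, ?_⟩, fun v hv ha => ?_⟩
  · have h1 := hy v (D.above v hv)
    rwa [Nat.cast_pow] at h1
  · rw [spl_iff hp hζ ha]
    refine ⟨y, lt_of_lt_of_le (hy v hv) ?_⟩
    have h2 := v.valuation_le_one (K := K) ((p ^ 2 : ℕ) : 𝓞 K)
    simpa using h2

/-- the part of `x` outside `S0` -/
def pf (D : RD0 K p ζ) (x : Kˣ) : Kˣ := ∏ᶠ v, if v ∈ D.S0 then 1 else D.pi v ^ ord v x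

theorem pf_sup (D : RD0 K p ζ) (x : Kˣ) :
    (Function.mulSupport fun v => if v ∈ D.S0 then 1 else D.pi v ^ ord v x).Finite :=
  (finite_ord x).subset fun v hv h => hv (by
    show (if v ∈ D.S0 then 1 else D.pi v ^ ord v x) = 1
    have h' : ord v x = 0 := h
    rw [h', zpow_zero, ite_self])

theorem pf_mul (D : RD0 K p ζ) (x y : Kˣ) : pf D (x * y) = pf D x * pf D y := by
  unfold pf
  rw [← finprod_mul_distrib (pf_sup D x) (pf_sup D y)]
  refine finprod_congr fun v => ?_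
  by_cases h : v ∈ D.S0
  · rw [if_pos h, if_pos h, if_pos h, mul_one]
  · rw [if_neg h, if_neg h, if_neg h, ord_mul, zpow_add]

theorem pf_inv (D : RD0 K p ζ) (x : Kˣ) : pf D x⁻¹ = (pf D x)⁻¹ := by
  have h := pf_mul D x x⁻¹
  rw [mul_inv_cancel] at h
  have h1 : pf D 1 = 1 := by
    unfold pf
    rw [finprod_congr (g := fun _ => (1 : Kˣ)) (fun v => by rw [ord_one, zpow_zero, ite_self]),
      finprod_one]
  rw [h1] at h
  exact (eq_inv_of_mul_eq_one_right h.symm)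

theorem pf_pi (D : RD0 K p ζ) {w : Pl K} (hw : w ∉ D.S0) : pf D (D.pi w) = D.pi w := by
  unfold pf
  rw [finprod_eq_single _ w]
  · rw [if_neg hw, D.pi_self w hw, zpow_one]
  · intro v hv
    by_cases h : v ∈ D.S0
    · rw [if_pos h]
    · rw [if_neg h, D.pi_ne w v hw h hv, zpow_zero]

theorem ord_pf (D : RD0 K p ζ) (x : Kˣ) {v : Pl K} (hv : v ∉ D.S0) : ord v (pf D x) = ord v x := by
  unfold pf
  have hs : (Function.mulSupport fun v => if v ∈ D.S0 then 1 else D.pi v ^ ord v x) ⊆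
      ((finite_ord x).toFinset : Set (Pl K)) := by
    intro u hu
    rw [Finset.mem_coe, Set.Finite.mem_toFinset]
    intro h
    apply hu
    show (if u ∈ D.S0 then 1 else D.pi u ^ ord u x) = 1
    have h' : ord u x = 0 := h
    rw [h', zpow_zero, ite_self]
  rw [finprod_eq_prod_of_mulSupport_subset _ hs, ord_prod]
  have h1 : ∀ u ∈ (finite_ord x).toFinset, ord v (if u ∈ D.S0 then 1 else D.pi u ^ ord u x) =
      if v = u then ord v x else 0 := by
    intro u _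
    by_cases hu : u ∈ D.S0
    · have hne : ¬ v = u := fun h => hv (by rw [h]; exact hu)
      rw [if_pos hu, ord_one, if_neg hne]
    · rw [if_neg hu, ord_zpow]
      by_cases huv : v = u
      · rw [if_pos huv, huv, D.pi_self u hu, mul_one]
      · rw [if_neg huv, D.pi_ne u v hu hv huv, mul_zero]
  rw [Finset.sum_congr rfl h1, Finset.sum_ite_eq]
  by_cases h : v ∈ (finite_ord x).toFinset
  · rw [if_pos h]
  · rw [if_neg h]
    rw [Set.Finite.mem_toFinset] at h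
    exact (not_not.1 h).symm

theorem ps_pf (D : RD0 K p ζ) {x : Kˣ} (h : qs D x = 0) : PS p ζ D.S0 (pf D x) := by
  set T := (finite_ord x).toFinset.filter fun v => v ∉ D.S0 with hT
  have h1 : pf D x = ∏ v ∈ T, D.pi v ^ ord v x := by
    unfold pf
    rw [finprod_eq_prod_of_mulSupport_subset (s := T)]
    · refine Finset.prod_congr rfl fun v hv => ?_
      rw [if_neg (Finset.mem_filter.1 hv).2]
    · intro v hv
      rw [Finset.mem_coe, hT, Finset.mem_filter, Set.Finite.mem_toFinset]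
      refine ⟨fun h2 => hv ?_, fun h2 => hv ?_⟩
      · show (if v ∈ D.S0 then 1 else D.pi v ^ ord v x) = 1
        have h' : ord v x = 0 := h2
        rw [h', zpow_zero, ite_self]
      · show (if v ∈ D.S0 then 1 else D.pi v ^ ord v x) = 1
        rw [if_pos h2]
  rw [h1]
  refine CHa_ps D T (fun v hv => (Finset.mem_filter.1 hv).2) (fun v => ord v x) ?_
  funext i
  have h2 := congrFun h i
  rw [Finset.sum_apply, Pi.zero_apply]
  rw [Pi.zero_apply] at h2
  unfold qs at h2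
  rw [finsum_eq_sum_of_support_subset (s := T)] at h2
  · exact h2
  · intro v hv
    rw [Finset.mem_coe, hT, Finset.mem_filter, Set.Finite.mem_toFinset]
    refine ⟨fun h3 => hv ?_, fun h3 => hv ?_⟩
    · show (ord v x : ZMod p) * D.q v i = 0
      have h' : ord v x = 0 := h3
      rw [h', Int.cast_zero, zero_mul]
    · show (ord v x : ZMod p) * D.q v i = 0
      rw [D.q_zero v h3, Pi.zero_apply, mul_zero]

/-- the class from the orders modulo `p` -/
theorem qs_single (D : RD0 K p ζ) {x : Kˣ} {w : Pl K}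
    (h : ∀ v, v ∉ D.S0 → (ord v x : ZMod p) = if v = w then 1 else 0) (hw : w ∉ D.S0) :
    qs D x = D.q w := by
  funext i
  unfold qs
  rw [finsum_eq_single _ w]
  · rw [h w hw, if_pos rfl, one_mul]
  · intro v hv
    by_cases hS : v ∈ D.S0
    · rw [D.q_zero v hS, Pi.zero_apply, mul_zero]
    · rw [h v hS, if_neg hv, zero_mul]

theorem qs_unit (D : RD0 K p ζ) {x : Kˣ} (h : ∀ v, v ∉ D.S0 → (ord v x : ZMod p) = 0) :
    qs D x = 0 := by
  funext i
  unfold qs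
  rw [Pi.zero_apply, finsum_congr (g := fun _ => (0 : ZMod p)) (fun v => ?_), finsum_zero]
  by_cases hS : v ∈ D.S0
  · rw [D.q_zero v hS, Pi.zero_apply, mul_zero]
  · rw [h v hS, zero_mul]

theorem qs_pi (D : RD0 K p ζ) {w : Pl K} (h : w ∉ D.S0) : qs D (D.pi w) = D.q w := by
  refine qs_single D (fun v hv => ?_) h
  by_cases hvw : v = w
  · rw [if_pos hvw, hvw, D.pi_self w h, Int.cast_one]
  · rw [if_neg hvw, D.pi_ne w v h hv hvw, Int.cast_zero]

/-- a character which is trivial at `S0` and unramified elsewhere is trivial -/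
theorem chi_uni (hp : p.Prime) (hζ : IsPrimitiveRoot ζ p) (D : RD0 K p ζ) (L : LDs D Ω) (Q : DP K Ω)
    (χ : Gal(Ω/K) →* Multiplicative (ZMod p)) (hχ : H38.ML.FT χ)
    (ht : ∀ v, v ∉ D.S0 → χ (L.t v) = 1)
    (h : ∀ v ∈ D.S0, ∀ σ ∈ dec (K := K) (Q.P v), χ σ = 1) : χ = 1 := by
  obtain ⟨e, he⟩ := kc_all hp hζ χ hχ
  have hk : ∀ σ, kk p ζ e σ = Multiplicative.toAdd (χ σ) := fun σ => by rw [he]; rfl
  have h1 : ∀ v, v ∉ D.S0 → (p : ℤ) ∣ ord v e := by
    intro v hv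
    have h3 : L.t v = (L.ld v hv).t := dif_pos hv
    have h2 : kk p ζ e (L.t v) = ord v e := by
      rw [h3]
      exact ld_kk_t hp hζ (fun h => hv (D.above v h)) (D.pi_self v hv) (L.ld v hv) e
    rw [hk, ht v hv, toAdd_one] at h2
    exact (ZMod.intCast_zmod_eq_zero_iff_dvd _ _).1 h2.symm
  obtain ⟨u, y, hu, hue⟩ := unit_of_ord hp D e h1
  have h4 : ∀ σ : Gal(Ω/K), kk p ζ u σ = kk p ζ e σ := by
    intro σ
    rw [hue, kk_mul_arg hp hζ, ← zpow_natCast y p, kk_zpow_arg hp hζ, Int.cast_natCast,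
      CharP.cast_eq_zero, zero_mul, add_zero]
  obtain ⟨z, hz⟩ := D.unit u hu (ps_of hp hζ D Q u fun v hv σ hσ => by
    rw [h4, hk, h v hv σ hσ, toAdd_one])
  ext σ
  have h5 : kk p ζ e σ = 0 := by
    rw [← h4, ← hz, ← zpow_natCast z p, kk_zpow_arg hp hζ, Int.cast_natCast,
      CharP.cast_eq_zero, zero_mul]
  rw [hk] at h5
  rw [MonoidHom.one_apply]
  exact Multiplicative.toAdd.injective h5

end Pool.Agent.H19.AB
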