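import Pool.Agent.H19.AB.Defs
import Pool.Agent.H24.RM.Rmz

/-!
# [H19 AB RM] reciprocity for 2-cocycles with values in `ZMod (p^m)`

`rm`: `Ψ` a 2-cocycle of `Γ` with values in `ZMod (p^m)`, pulled back from a finite group by a homomorphism with inertia of order `p`, zero on the decomposition groups at `S0`: the sum
of the tori is zero. `K` contains the roots of unity of order `p^(m+1)`.

Proof, with integral cochains `C : Γ → Γ → ℤ` (no division in `ZMod`): `rmZ m`: let `C` be normalised (exactly), a cocycle modulo `p^m`, constant on the fibres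
of `ρ × ρ`, `ρ : Γ → R` of finite type with `(ρ τ)^p = 1` for `τ` in the inertia groups outside `S0`; for `v ∈ S0` there is `θ : Γ → ℤ` of finite level with
`C σ τ ≡ θ σ + θ τ - θ (σ τ)` mod `p^m` on `dec v`. If `C (F_v, t_v) = C (t_v, F_v)` for `v ∉ T`, then `p^m` divides `∑_T lam v (C (F_v, t_v) - C (t_v, F_v))`.
* `m = 1`: `H51.MT.brg` (enlarge `T` by the finitely many primes with `ρ t_v ≠ 1`).
* `m → m + 1` (`m ≥ 1`):
  (a) `b ∈ Kˣ` with `kk b t_v = ∑_{k<p} C (t_v^k, t_v)` for `v ∈ T'` (`T'` = the primes outside `S0` with `ρ t_v ≠ 1`), `0` for the others (product of `pi v`; `ch_ex` of `H77.WD.Lft` or `CHa_val`).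
      `kl`: (Kummer) there is `Θ : Γ → ℤ` of finite level with `Θ ≡ (kk b).val` mod `p` and `Θ (σ τ) ≡ Θ σ + Θ τ` mod `p^(m+2)`. Put `κ = ((kk b).val - Θ) / p`,
      `C' = C - carry`, `carry σ τ = ((kk b σ).val + (kk b τ).val - (kk b (σ τ)).val) / p` (symmetric, so the tori do not change), `carry ≡ d κ` mod `p^(m+1)`.
      `∑_k carry (t^k, t) = (kk b t).val`. So `∑_{k<p} C' (t_v^k, t_v) ≡ 0` mod `p` for all `v ∉ S0`.
  (b) `X = C'` mod `p` is a normalised cocycle which depends on `ρ' = (ρ, kk b)`; for commuting `F, t` with `t^p = 1`: `p (C (F,t) - C (t,F)) ≡ 0` mod `p^(m+1)`, so `X (F,t) = X (t,F)`;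
      `X` is a coboundary on `dec v`, `v ∈ S0` (`θ_v - κ` mod `p`). `brg1f`: `Tv X`: `l (σ τ) = l σ + l τ + X σ τ`, `l 1 = 0`.
  (c) `ρ'' = (ρ', l) : Γ → Xt e he` (or any finite group), exponent `p` on inertia because `pw e (ρ' τ) = 0` (`ρ' τ` is a power of `ρ' t_v`; `pw e (x^j) = j pw e x`, `x^p = 1`).
      `C'' = (C' + (l σ).val + (l τ).val - (l (σ τ)).val) / p` (exact), a cocycle mod `p^m`.
  (d) at `v ∈ S0`: `μ = θ_v - κ + (l).val` has `d μ ≡ p C''` mod `p^(m+1)` on `dec v`; `μ` mod `p` is a homomorphism on `dec v`; `H63.MA.lock`: it is `kk b'` for some `b'`; `kl`: `Θ'`;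
      `θ''= (μ - Θ') / p` has `d θ'' ≡ C''` mod `p^m` on `dec v`.
  (e) `C (F,t) - C (t,F) = C' (F,t) - C' (t,F) = p (C'' (F,t) - C'' (t,F))` for `(F,t) = (F_v,t_v)` (`l (F t) = l (t F)`). Induction.
* `rm`: `C = (Ψ).val`.
-/

set_option autoImplicit false
set_option linter.dupNamespace false

open scoped NumberField
open IsDedekindDomain
open scoped Classical

noncomputable section

namespace Pool.Agent.H19.AB

open H63.MA H38.BB H38.BG H57.PC H57.BRA H89.BRG H48.MF Pool.Agent.H19.NF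

variable {K : Type} [Field K] [NumberField K] {Ω : Type} [Field Ω] [Algebra K Ω] [IsAlgClosure K Ω]
  {p : ℕ} {ζ : K}

/-- reciprocity for 2-cocycles with values in `ZMod (p^m)` -/
theorem rm (hp : p.Prime) (hp2 : MOne p K) (hζ : IsPrimitiveRoot ζ p) (hz2 : Z2 p K)
    {D : RD0 K p ζ} {L : LDs D Ω} (Q : DP K Ω) (Fr : FR L) {lam : Pl K → ZMod p}
    (hlam : IsRec p ζ lam) {m : ℕ} (hm : 1 ≤ m) {z : K} (hz : IsPrimitiveRoot z (p ^ (m + 1)))
    (hzζ : z ^ (p ^ m) = ζ) (Ψ : Gal(Ω/K) → Gal(Ω/K) → ZMod (p ^ m)) (h1 : LfT L Ψ)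
    (h2 : Rel D Q Ψ) (h3 : ∀ σ τ υ, d2 Ψ σ τ υ = 0) : TS L Fr lam Ψ = 0 := by
  obtain ⟨n, rfl⟩ : ∃ n, m = n + 1 := ⟨m - 1, by omega⟩
  haveI : NeZero (p ^ (n + 1)) := ⟨(pow_pos hp.pos _).ne'⟩
  obtain ⟨R, i1, i2, ρ, ψ, ht, hρ, hl, hr, hΨ⟩ := h1
  set C : Gal(Ω/K) → Gal(Ω/K) → ℤ := fun σ τ => ((Ψ σ τ).val : ℤ) with hCdef
  have hCk : ∀ σ τ, ((C σ τ : ℤ) : ZMod (p ^ (n + 1))) = Ψ σ τ := fun σ τ => by
    show ((((Ψ σ τ).val : ℕ) : ℤ) : ZMod (p ^ (n + 1))) = Ψ σ τ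
    rw [Int.cast_natCast, ZMod.natCast_zmod_val]
  have hC0 : ∀ σ τ, Ψ σ τ = 0 → C σ τ = 0 := fun σ τ h => by
    show ((Ψ σ τ).val : ℤ) = 0
    rw [h, ZMod.val_zero, Nat.cast_zero]
  have hpn : ((p ^ (n + 1) : ℕ) : ℤ) = (p : ℤ) ^ (n + 1) := by push_cast; rfl
  have hC : Pool.Agent.H24.RM.IZ ((p : ℤ) ^ (n + 1)) C := by
    refine ⟨fun σ => hC0 _ _ (by rw [hΨ, map_one, hl]), fun σ => hC0 _ _ (by rw [hΨ, map_one, hr]),
      fun σ τ υ => ?_⟩
    rw [← hpn]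
    apply (ZMod.intCast_zmod_eq_zero_iff_dvd _ (p ^ (n + 1))).1
    rw [Int.cast_sub, Int.cast_add, Int.cast_sub, hCk, hCk, hCk, hCk]
    exact h3 σ τ υ
  have hfin := ram_finite hp D L ρ hρ
  have hz0 : ∀ v, v ∉ hfin.toFinset → Ψ (L.t v) (Fr.F v) = 0 ∧ Ψ (Fr.F v) (L.t v) = 0 := by
    intro v hv
    have h4 : ρ (L.t v) = 1 := by
      by_cases hS : v ∈ D.S0
      · have h5 : L.t v = 1 := by
          unfold LDs.t
          rw [dif_neg (not_not.2 hS)]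
        rw [h5, map_one]
      · by_contra h5
        exact hv ((Set.Finite.mem_toFinset hfin).2 ⟨hS, h5⟩)
    rw [hΨ, hΨ, h4]
    exact ⟨hl _, hr _⟩
  have h4 := Pool.Agent.H24.RM.rmz hp hp2 hζ hz2 Q Fr hlam hfin.toFinset
    (fun v hv => ((Set.Finite.mem_toFinset hfin).1 hv).1) n z hz hzζ R ρ hρ C hC
    (fun σ σ' τ τ' h h' => by
      show ((Ψ σ τ).val : ℤ) = ((Ψ σ' τ').val : ℤ)
      rw [hΨ, hΨ, h, h'])
    (fun v hv => ⟨fun _ => 0, gtriv_const 0, fun σ hσ τ hτ => by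
      rw [hC0 _ _ (h2 v hv σ hσ τ hτ)]
      exact ⟨0, by unfold Pool.Agent.H24.RM.dd; ring⟩⟩) ht
    (fun v _ hv => by rw [hC0 _ _ (hz0 v hv).1, hC0 _ _ (hz0 v hv).2])
  have h5 : TS L Fr lam Ψ = ∑ v ∈ hfin.toFinset, (lam v).val • br Ψ (L.t v) (Fr.F v) := by
    unfold TS
    refine finsum_eq_sum_of_support_subset _ fun v hv => ?_
    by_contra hT
    refine hv ?_
    show (lam v).val • br Ψ (L.t v) (Fr.F v) = 0
    unfold br
    have h6 := hz0 v fun h' => hT (Finset.mem_coe.2 h')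
    rw [h6.1, h6.2, sub_zero, smul_zero]
  rw [← hpn] at h4
  have h6 := (ZMod.intCast_zmod_eq_zero_iff_dvd _ (p ^ (n + 1))).2 h4
  rw [h5, ← neg_eq_zero, ← h6, Int.cast_sum, ← Finset.sum_neg_distrib]
  refine Finset.sum_congr rfl fun v _ => ?_
  rw [Int.cast_mul, Int.cast_sub, hCk, hCk, Int.cast_natCast, nsmul_eq_mul]
  unfold br
  ring

end Pool.Agent.H19.AB
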