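import Pool.Agent.H19.AB.Du

/-!
# [H19 AB SPN] the constants of the reciprocity law outside `S0`; good primes away from a finite set span

* `spn`: the classes of the good primes outside a finite set `F` span.
* `lam_ne`: `D.lam v ≠ 0` for `v ∉ S0`.
* `ll_gen`: `kk (pi w) (F_v) = (lam v)⁻¹ kk (pi v) (F_w) + ev D (q w) v` for `w` good, `v ∉ S0`, `v ≠ w`.
-/

set_option autoImplicit false
set_option linter.dupNamespace false

open scoped NumberField
open IsDedekindDomain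
open scoped Classical

noncomputable section

namespace Pool.Agent.H19.AB

open H63.MA H38.BB H38.BG H57.PC H57.BRA H89.BRG H48.MF Pool.Agent.H19.NF

variable {K : Type} [Field K] [NumberField K] {p : ℕ} {ζ : K}

private theorem spn_key (hp : p.Prime) (D : RD0 K p ζ) (F0 : Finset (Pl K)) (κ : Fin D.r → ZMod p)
    (hκ : κ ≠ 0) (h0 : ∀ v, D.Gd v → v ∉ F0 → dt κ (D.q v) = 0) : False := by
  obtain ⟨v0, hv0S, -, hv0⟩ := alem_ne2 D ∅ (fun w hw => absurd hw (Finset.notMem_empty w)) κ hκ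
  obtain ⟨χ, hχ1, hχ2⟩ := ray_rc hp D.M0_ne (D.ray_q κ)
  have hNon : χ.Non := hχ2 ⟨v0, hv0⟩
  obtain ⟨C, A, δ, hC, hA, hδ, hδ1, hasq⟩ := asq D
  obtain ⟨κ1, T₀, hκ1, hone⟩ := acntb_one D
  set T₁ : ℝ := max T₀ (∑ v ∈ F0, (nm v : ℝ)) with hT₁
  have hfin : {v : Pl K | v ∈ D.S0 ∨ (nm v : ℝ) ≤ T₁}.Finite :=
    D.S0.finite_toSet.union (acntb_fin K T₁)
  obtain ⟨F, hF⟩ : ∃ F : Finset (Pl K), ∀ v, v ∈ F ↔ v ∈ D.S0 ∨ (nm v : ℝ) ≤ T₁ :=
    ⟨hfin.toFinset, fun v => by rw [Set.Finite.mem_toFinset]; rfl⟩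
  have hF0 : ∀ v ∈ F0, v ∈ F := by
    intro v hv
    rw [hF]
    refine Or.inr (le_trans ?_ (le_max_right _ _))
    exact Finset.single_le_sum (f := fun v : Pl K => (nm v : ℝ)) (fun _ _ => Nat.cast_nonneg _) hv
  obtain ⟨y1, hy11, hy1⟩ := hone T₁ (le_max_left _ _) F hF
  have hP0 : 0 < ∏ v ∈ F, (1 - (nm v : ℝ)⁻¹) := acntb_P F
  have hN0 : (1 : ℝ) ≤ (Ideal.absNorm D.M0 : ℝ) := by
    have h1 : Ideal.absNorm D.M0 ≠ 0 := by
      rw [Ne, Ideal.absNorm_eq_zero_iff]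
      exact D.M0_ne
    exact_mod_cast Nat.one_le_iff_ne_zero.2 h1
  have hN0A : 0 < (Ideal.absNorm D.M0 : ℝ) ^ A := Real.rpow_pos_of_pos (by linarith) _
  obtain ⟨y2, hy21, hy2⟩ := acntb_pow (a := κ1 * (∏ v ∈ F, (1 - (nm v : ℝ)⁻¹)) / 2)
    (C := C * (Ideal.absNorm D.M0 : ℝ) ^ A * 2 ^ F.card) (δ := δ)
    (by positivity) (by positivity) hδ
  set y : ℝ := max y1 y2 with hy
  have e1 := hy1 y (le_max_left _ _)
  have e2 := hy2 y (le_max_right _ _)
  have hy1' : 1 ≤ y := hy11.trans (le_max_left _ _)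
  have e3 := hasq D.M0 D.M0_ne χ hNon F y hy1'
  have e4 : ∑ n ∈ (GF D y).filter (fun n => Disjoint n F), χ.χ (idl n) =
      (((GF D y).filter (fun n => Disjoint n F)).card : ℂ) := by
    rw [Finset.cast_card]
    refine Finset.sum_congr rfl fun n hn => ?_
    obtain ⟨hn1, hn2⟩ := Finset.mem_filter.1 hn
    rw [GF, Finset.mem_filter] at hn1
    have hidl : idl n = ∏ v ∈ n, v.asIdeal := rfl
    rw [hidl, map_prod]
    refine Finset.prod_eq_one fun v hv => ?_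
    have hg := hn1.2 v hv
    have hd : ¬ v.asIdeal ∣ D.M0 := fun h => hg.1 ((D.M0_dvd v).1 h)
    rw [hχ1 v hd]
    have hvF : v ∉ F0 := fun h => Finset.disjoint_left.1 hn2 hv (hF0 v h)
    have h5 : ∑ i, κ i * D.q v i = 0 := h0 v hg hvF
    rw [h5, ep_zero]
  rw [e4, Complex.norm_natCast] at e3
  have e5 : (((GF D y).filter fun n => Disjoint n F ∧ y / 2 < nr n).card : ℝ) ≤
      (((GF D y).filter (fun n => Disjoint n F)).card : ℝ) := by
    exact_mod_cast Finset.card_le_card (fun n hn => by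
      rw [Finset.mem_filter] at hn ⊢
      exact ⟨hn.1, hn.2.1⟩)
  have hpos : 0 < κ1 * (∏ v ∈ F, (1 - (nm v : ℝ)⁻¹)) * y := by positivity
  linarith

/-- the classes of the good primes outside `F0` span -/
theorem spn (hp : p.Prime) (D : RD0 K p ζ) (F0 : Finset (Pl K)) :
    ∃ T : Finset (Pl K), (∀ v ∈ T, D.Gd v ∧ v ∉ F0) ∧
      ∀ y : Fin D.r → ZMod p, ∃ α : Pl K → ZMod p, y = ∑ v ∈ T, α v • D.q v := by
  have hF : Fact p.Prime := ⟨hp⟩
  have h1 : Submodule.span (ZMod p) (D.q '' {v : Pl K | D.Gd v ∧ v ∉ F0}) = ⊤ := by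
    by_contra h
    obtain ⟨F, hF0, hF⟩ := Submodule.exists_le_ker_of_lt_top _ (lt_top_iff_ne_top.2 h)
    have hFd : ∀ x : Fin D.r → ZMod p, F x = dt (fun k => F (Pi.single k 1)) x := by
      intro x
      conv_lhs => rw [← Finset.univ_sum_single x]
      rw [map_sum]
      unfold dt
      refine Finset.sum_congr rfl fun k _ => ?_
      have h2 : (Pi.single k (x k) : Fin D.r → ZMod p) = x k • Pi.single k 1 := by
        rw [← Pi.single_smul, smul_eq_mul, mul_one]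
      rw [h2, map_smul, smul_eq_mul, mul_comm]
    refine spn_key hp D F0 (fun k => F (Pi.single k 1)) ?_ ?_
    · intro h0
      apply hF0
      apply LinearMap.ext
      intro x
      rw [hFd, h0]
      unfold dt
      simp
    · intro v hv hvF
      rw [← hFd]
      exact LinearMap.mem_ker.1 (hF (Submodule.subset_span ⟨v, ⟨hv, hvF⟩, rfl⟩))
  have h2 : ∃ T : Finset (Pl K), (∀ v ∈ T, D.Gd v ∧ v ∉ F0) ∧
      Submodule.span (ZMod p) (D.q '' (T : Set (Pl K))) = ⊤ := by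
    have hfin : (D.q '' {v : Pl K | D.Gd v ∧ v ∉ F0}).Finite := Set.toFinite _
    have hsub : (hfin.toFinset : Set (Fin D.r → ZMod p)) ⊆ D.q '' {v : Pl K | D.Gd v ∧ v ∉ F0} := by
      rw [Set.Finite.coe_toFinset]
    obtain ⟨T, hT, hT1⟩ := Finset.subset_set_image_iff.1 hsub
    refine ⟨T, fun v hv => hT hv, ?_⟩
    rw [← Finset.coe_image, hT1, Set.Finite.coe_toFinset]
    exact h1
  obtain ⟨T, hT, hT1⟩ := h2
  refine ⟨T, hT, fun y => ?_⟩
  have h3 : y ∈ Submodule.span (ZMod p) (D.q '' (T : Set (Pl K))) := by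
    rw [hT1]
    trivial
  obtain ⟨c, hc⟩ := (Submodule.mem_span_image_finset_iff_exists_fun' (ZMod p)).1 h3
  exact ⟨c, hc.symm⟩

/-- reciprocity for a uniformiser -/
theorem rec_pi (D : RD K p ζ) {v w : Pl K} (hv : v ∉ D.S0) (hw : D.Gd w) :
    D.LL w (D.pi v) = ∑ i, (D.rec1 (D.pi v)).choose i * D.q w i +
      D.lam v * D.LL v (D.pi w) := by
  have h := (D.rec1 (D.pi v)).choose_spec w hw
  rw [h, finsum_eq_single _ v]
  · rw [if_neg hv, D.pi_self v hv, Int.cast_one, mul_one]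
  · intro u hu
    by_cases hS : u ∈ D.S0
    · rw [if_pos hS]
    · rw [if_neg hS, D.pi_ne v u hv hS hu, Int.cast_zero, mul_zero, zero_mul]

/-- the constant part -/
def ev (D : RD K p ζ) (c : Fin D.r → ZMod p) (v : Pl K) : ZMod p :=
  -((D.lam v)⁻¹ * ∑ i, (D.rec1 (D.pi v)).choose i * c i)

theorem ev_sum (D : RD K p ζ) (v : Pl K) (T : Finset (Pl K)) (α : Pl K → ZMod p) :
    ∑ w ∈ T, α w * ev D (D.q w) v = ev D (∑ w ∈ T, α w • D.q w) v := by
  unfold ev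
  simp only [Finset.sum_apply, Pi.smul_apply, smul_eq_mul]
  rw [Finset.sum_congr rfl (g := fun w => -((D.lam v)⁻¹ *
    ∑ i, (D.rec1 (D.pi v)).choose i * (α w * D.q w i))) (fun w _ => by
      rw [mul_neg, mul_left_comm, Finset.mul_sum]
      congr 2
      refine Finset.sum_congr rfl fun i _ => ?_
      ring), Finset.sum_neg_distrib, ← Finset.mul_sum, Finset.sum_comm]
  congr 2
  refine Finset.sum_congr rfl fun i _ => ?_
  rw [Finset.mul_sum]

variable {Ω : Type} [Field Ω] [Algebra K Ω] [IsAlgClosure K Ω]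

theorem lam_ne (hp : p.Prime) (hp2 : MOne p K) (hζ : IsPrimitiveRoot ζ p) (D : RD K p ζ)
    (L : LDs D.toRD0 Ω) (Q : DP K Ω) (Fr : FR L) {v : Pl K} (hv : v ∉ D.S0) : D.lam v ≠ 0 := by
  intro h0
  obtain ⟨ξ, h1, h2, h3⟩ := q_xi hp hp2 hζ D L Q Fr (D.rec1 (D.pi v)).choose
  obtain ⟨u, hu, rfl⟩ := xi_unit hp hζ L ξ h1 h2
  have h4 : IsPow p (D.pi v * u⁻¹) := by
    by_contra hne
    obtain ⟨w, hw, -, -, hw2⟩ := D.non _ hne ∅
    apply hw2
    have h5 : kk p ζ (D.pi v) (Fr.F w) = kk p ζ u (Fr.F w) := by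
      rw [Fr.kf w hw.1, rec_pi D hv hw, h0, zero_mul, add_zero, ← h3 w hw, kk_kc]
    rw [← Fr.kf w hw.1, ← zpow_neg_one u, kk_mul_arg hp hζ, kk_zpow_arg hp hζ, h5, Int.cast_neg,
      Int.cast_one, neg_one_mul, add_neg_cancel]
  obtain ⟨z, hz⟩ := h4
  have h6 : ord v (z ^ p) = 1 := by
    rw [hz, ord_mul, ord_inv, D.pi_self v hv, hu v hv, neg_zero, add_zero]
  rw [ord_pow] at h6
  have h7 : (p : ℤ) ∣ 1 := ⟨_, h6.symm⟩
  have h8 : p ∣ 1 := by exact_mod_cast h7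
  exact hp.one_lt.ne' (Nat.dvd_one.1 h8)

/-- the symmetry -/
theorem ll_sym (hp : p.Prime) (hp2 : MOne p K) (hζ : IsPrimitiveRoot ζ p) {D : RD K p ζ}
    {L : LDs D.toRD0 Ω} (Q : DP K Ω) (Fr : FR L) {v w : Pl K} (hv : v ∉ D.S0)
    (hw : D.Gd w) :
    kk p ζ (D.pi w) (Fr.F v) = (D.lam v)⁻¹ * kk p ζ (D.pi v) (Fr.F w) + ev D (D.q w) v := by
  have hF : Fact p.Prime := ⟨hp⟩
  have h0 := lam_ne hp hp2 hζ D L Q Fr hv
  rw [Fr.kf v hv, Fr.kf w hw.1, rec_pi D hv hw]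
  unfold ev
  field_simp
  ring

end Pool.Agent.H19.AB
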